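import Pool.Agent.Helper17.CE.In3

set_option autoImplicit false

namespace Pool.Agent.Helper17.CE
open MeasureTheory Pool.Agent.Helper16.CE
open scoped ENNReal

theorem rf_comm02 (x : E3) : rf 0 (rf 2 x) = rf 2 (rf 0 x) := by
  ext i; simp only [rf_apply]; fin_cases i <;> simp

/-- the splitting `u = u₀ + u₁` -/
theorem split (u : S) : ∃ a b : S, u = a + b ∧ OddJ 0 a ∧ OddJ 1 b ∧ ‖a‖ ≤ ‖u‖ ∧ ‖b‖ ≤ ‖u‖ := by
  have hm : Measurable fun x => ev u (rf 0 x) := (meas_ev u).comp (rf 0).continuous.measurable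
  have h01 : ∀ x, ev u (rf 0 x) = - ev u (rf 1 x) := by
    intro x
    have := ev_01 u (rf 1 x)
    rwa [rf_rf] at this
  have hb : ∀ (c : ℂ), ‖c‖ ≤ 1 → ∀ x, ‖(ev u x + c * ev u (rf 0 x)) / 2‖ ≤ ‖u‖ := by
    intro c hc x
    rw [norm_div, Complex.norm_two]
    have h1 : ‖ev u x + c * ev u (rf 0 x)‖ ≤ ‖u‖ + 1 * ‖u‖ := by
      refine (norm_add_le _ _).trans (add_le_add (ev_le u x) ?_)
      rw [norm_mul]
      exact mul_le_mul hc (ev_le u _) (norm_nonneg _) zero_le_one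
    linarith
  have hcl : ∀ (c : ℂ), Cls fun x => (ev u x + c * ev u (rf 0 x)) / 2 := by
    intro c
    refine ⟨((meas_ev u).add (hm.const_mul c)).div_const 2, fun x => ?_, fun x => ?_⟩
    · rw [map_neg, (cls_ev u).neg, (cls_ev u).neg]; ring
    · rw [rf_comm02, (cls_ev u).refl, (cls_ev u).refl]
  obtain ⟨a, ha⟩ := exists_ev _ (hcl (-1)) ‖u‖ (hb (-1) (by simp))
  obtain ⟨b, hb'⟩ := exists_ev _ (hcl 1) ‖u‖ (hb 1 (by simp))
  refine ⟨a, b, ?_, ?_, ?_, ?_, ?_⟩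
  · apply ev_ext
    intro x
    rw [ev_add, ha, hb']; ring
  · intro x
    rw [ha, ha, rf_rf]; ring
  · intro x
    rw [hb', hb', ← rf_comm01, h01 x]
    have := h01 (rf 0 x)
    rw [rf_rf] at this
    have h2 : ev u (rf 1 (rf 0 x)) = - ev u x := by rw [this, neg_neg]
    rw [h2]
    ring
  · exact norm_le_ev _ _ (norm_nonneg _) fun x => by rw [ha]; exact hb (-1) (by simp) x
  · exact norm_le_ev _ _ (norm_nonneg _) fun x => by rw [hb']; exact hb 1 (by simp) x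

section
variable (f : E3 → ℝ) (f1 f2 : ℝ) (hf : Measurable f) (hf1 : 0 < f1)
    (hf12 : ∀ x, f1 ≤ f x ∧ f x ≤ f2) (hfi : ∀ (L : E3 ≃ₗᵢ[ℝ] E3) x, f (L x) = f x)
    (hpsi : ∀ (j : Fin 3) (x : E3), ‖x‖ < 1 →
      ∫ y in Metric.ball (0 : E3) 1, gk 0 ‖x - y‖ * (y j : ℂ) = (f x : ℂ) * (x j : ℂ))

include hf hf1 hf12 hfi hpsi in
/-- geometric decay of the iterates on one symmetry class -/
theorem iter (c0 : ℝ) (hc0 : 0 < c0) (hc1 : c0 * (32 * Real.pi * f2 ^ 2) ≤ 1) (j j' : Fin 3)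
    (hj : j = 0 ∧ j' = 1 ∨ j = 1 ∧ j' = 0) (mj : ℝ) (hmj : mom j (psi j) = (mj : ℂ)) (q : ℝ)
    (hq0 : 0 ≤ q) (hq : 1 - c0 * mj ≤ q) :
    ∃ K : ℝ, 0 ≤ K ∧ ∀ (n : ℕ) (w : S), OddJ j w → ‖((SS f c0) ^ (n + 2)) w‖ ≤ K * q ^ n * ‖w‖ := by
  obtain ⟨C, hC0, hC⟩ := first f f1 f2 hf hf1 hf12 hfi hpsi c0 hc0 j j' hj
  have hf2 : 0 < f2 := hf1.trans_le ((hf12 0).1.trans (hf12 0).2)
  have hodd : ∀ (n : ℕ) (w : S), OddJ j w → OddJ j (((SS f c0) ^ n) w) := by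
    intro n
    induction n with
    | zero => intro w hw; exact hw
    | succ n ih =>
      intro w hw
      rw [pow_succ']
      exact SS_odd f f1 f2 hf hf1 hf12 hfi c0 j j' hj _ (ih w hw)
  have hdec : ∀ (n : ℕ) (w : S), OddJ j w → ∀ x, ‖x‖ < 1 →
      ‖ev (((SS f c0) ^ (n + 1)) w) x‖ ≤ (C * ‖w‖ * q ^ n) * |f x * x j| := by
    intro n
    induction n with
    | zero =>
      intro w hw x hx
      rw [zero_add, pow_one, pow_zero, mul_one]
      exact hC w hw x hx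
    | succ n ih =>
      intro w hw x hx
      rw [pow_succ']
      have h1 := contract f f1 f2 hf hf1 hf12 hfi hpsi c0 hc1 j j' hj mj hmj _
        (hodd (n + 1) w hw) (C * ‖w‖ * q ^ n) (ih w hw) x hx
      refine h1.trans ?_
      apply mul_le_mul_of_nonneg_right _ (abs_nonneg _)
      rw [pow_succ, ← mul_assoc]
      apply mul_le_mul_of_nonneg_left hq
      positivity
  refine ⟨‖SS f c0‖ * (C * f2), mul_nonneg (ContinuousLinearMap.opNorm_nonneg _) (by positivity),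
    fun n w hw => ?_⟩
  have h1 : ∀ y, ‖y‖ < 1 → ‖ev (((SS f c0) ^ (n + 1)) w) y‖ ≤ C * ‖w‖ * q ^ n * f2 := by
    intro y hy
    refine (hdec n w hw y hy).trans ?_
    apply mul_le_mul_of_nonneg_left _ (by positivity)
    rw [abs_mul, abs_of_pos (hf1.trans_le (hf12 y).1)]
    calc f y * |y j| ≤ f2 * 1 := mul_le_mul (hf12 y).2 ((coord_le j y).trans hy.le)
          (abs_nonneg _) hf2.le
      _ = f2 := mul_one _
  have h2 := SS_loc f f1 f2 hf hf1 hf12 hfi c0 (((SS f c0) ^ (n + 1)) w) _ (by positivity) h1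
  have e : ((SS f c0) ^ (n + 2)) w = SS f c0 (((SS f c0) ^ (n + 1)) w) := by
    rw [pow_succ']; rfl
  rw [e]
  refine h2.trans (le_of_eq ?_)
  ring

include hf hf1 hf12 hfi hpsi in
/-- Part IN2 -/
theorem inner_unit :
    ∃ c0 : ℝ, 0 < c0 ∧ IsUnit (1 + T 0 (vv f) + (c0 : ℂ) • P) := by
  obtain ⟨m0, hm0, hm0'⟩ := mom_pos f f1 f2 hf hf1 hf12 hfi hpsi 0 (by decide)
  obtain ⟨m1, hm1, hm1'⟩ := mom_pos f f1 f2 hf hf1 hf12 hfi hpsi 1 (by decide)
  have hf2 : 0 < f2 := hf1.trans_le ((hf12 0).1.trans (hf12 0).2)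
  have hp := Real.pi_pos
  set c0 : ℝ := min (1 / (32 * Real.pi * f2 ^ 2)) (1 / (m0 + m1)) with hc
  have hc0 : 0 < c0 := lt_min (by positivity) (by positivity)
  have hc1 : c0 * (32 * Real.pi * f2 ^ 2) ≤ 1 := by
    have : c0 ≤ 1 / (32 * Real.pi * f2 ^ 2) := min_le_left _ _
    rwa [le_div_iff₀ (by positivity)] at this
  have hc2 : c0 * (m0 + m1) ≤ 1 := by
    have : c0 ≤ 1 / (m0 + m1) := min_le_right _ _
    rwa [le_div_iff₀ (by positivity)] at this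
  set q : ℝ := 1 - c0 * min m0 m1 with hq
  have hq0 : 0 ≤ q := by
    have h1 : min m0 m1 ≤ m0 + m1 := (min_le_left _ _).trans (by linarith)
    have h2 := mul_le_mul_of_nonneg_left h1 hc0.le
    linarith
  have hq1 : q < 1 := by
    have h1 : 0 < min m0 m1 := lt_min hm0 hm1
    have := mul_pos hc0 h1
    linarith
  obtain ⟨K0, hK0, hK0'⟩ := iter f f1 f2 hf hf1 hf12 hfi hpsi c0 hc0 hc1 0 1 (Or.inl ⟨rfl, rfl⟩) m0
    hm0' q hq0 (by
      have := mul_le_mul_of_nonneg_left (min_le_left m0 m1) hc0.le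
      linarith)
  obtain ⟨K1, hK1, hK1'⟩ := iter f f1 f2 hf hf1 hf12 hfi hpsi c0 hc0 hc1 1 0 (Or.inr ⟨rfl, rfl⟩) m1
    hm1' q hq0 (by
      have := mul_le_mul_of_nonneg_left (min_le_right m0 m1) hc0.le
      linarith)
  have hlim : Filter.Tendsto (fun n : ℕ => (K0 + K1) * q ^ n) Filter.atTop (nhds 0) := by
    have := (tendsto_pow_atTop_nhds_zero_of_lt_one hq0 hq1).const_mul (K0 + K1)
    simpa using this
  obtain ⟨n, hn⟩ := (hlim.eventually (gt_mem_nhds (zero_lt_one))).exists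
  have hnorm : ‖(SS f c0) ^ (n + 2)‖ < 1 := by
    refine lt_of_le_of_lt ?_ hn
    apply ContinuousLinearMap.opNorm_le_bound _ (by positivity)
    intro u
    obtain ⟨a, b, hab, ha, hb, ha', hb'⟩ := split u
    have e : ((SS f c0) ^ (n + 2)) u = ((SS f c0) ^ (n + 2)) a + ((SS f c0) ^ (n + 2)) b := by
      conv_lhs => rw [hab]
      rw [map_add]
    rw [e]
    refine (norm_add_le _ _).trans ?_
    have h1 := hK0' n a ha
    have h2 := hK1' n b hb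
    have h3 : K0 * q ^ n * ‖a‖ ≤ K0 * q ^ n * ‖u‖ := mul_le_mul_of_nonneg_left ha' (by positivity)
    have h4 : K1 * q ^ n * ‖b‖ ≤ K1 * q ^ n * ‖u‖ := mul_le_mul_of_nonneg_left hb' (by positivity)
    calc _ ≤ K0 * q ^ n * ‖u‖ + K1 * q ^ n * ‖u‖ := add_le_add (h1.trans h3) (h2.trans h4)
      _ = _ := by ring
  refine ⟨c0, hc0, ?_⟩
  have hu : IsUnit (1 - (SS f c0) ^ (n + 2)) :=
    isUnit_one_sub_of_norm_lt_one (x := (SS f c0) ^ (n + 2)) hnorm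
  have e1 : (1 - SS f c0) * ∑ i ∈ Finset.range (n + 2), (SS f c0) ^ i = 1 - (SS f c0) ^ (n + 2) :=
    mul_neg_geom_sum _ _
  have e2 : (∑ i ∈ Finset.range (n + 2), (SS f c0) ^ i) * (1 - SS f c0) = 1 - (SS f c0) ^ (n + 2) :=
    geom_sum_mul_neg _ _
  have hcomm : Commute (1 - SS f c0) (∑ i ∈ Finset.range (n + 2), (SS f c0) ^ i) := by
    unfold Commute SemiconjBy
    rw [e1, e2]
  rw [← e1, hcomm.isUnit_mul_iff] at hu
  have e3 : 1 + T 0 (vv f) + (c0 : ℂ) • P = 1 - SS f c0 := by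
    unfold SS; abel
  rw [e3]
  exact hu.1

end

end Pool.Agent.Helper17.CE
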