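import Pool.Agent.Helper17.CE.FN2

set_option autoImplicit false

namespace Pool.Agent.Helper17.CE
open MeasureTheory Pool.Agent.Helper16.CE
open Pool.Agent.Helper18.CE (Wf W_props)
open Pool.Agent.Helper61.CE (zt zt_bounds nodes cost)
open Pool.Agent.Helper78.CE (interp_fix)
open Pool.Agent.Helper96.CE (eigen_of_fix rad)
open scoped ENNReal

theorem W_int' (c4 : ℝ) (hrad : ∀ F : ℝ → ℂ,
    ∫ z : E3, F ‖z‖ * (((((z 0) ^ 2 + (z 1) ^ 2) / ‖z‖ ^ 2) ^ 2 : ℝ) : ℂ) =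
      c4 * ∫ r in Set.Ioi (0 : ℝ), F r * ((r ^ 2 : ℝ) : ℂ))
    (C0 : ℝ) (N : ℕ) (hN : 1 ≤ N) (om : ℕ → ℝ → ℝ)
    (hom1 : ∀ n, Measurable (om n)) (hom2 : ∀ n t, t < 1 / (N : ℝ) → om n t = 0)
    (hom3 : ∀ n ≤ N, ∀ t, |om n t| ≤ C0 * (N : ℝ) ^ 3 * Real.exp (- t / (4 * N)))
    (hom : ∀ n, ∀ ζ : ℂ, 0 < ζ.im →
      ∫ t in Set.Ioi (0 : ℝ), (om n t : ℂ) * (1 / (t : ℂ) - Complex.I * ζ / 2) ^ 2 *
          Complex.exp (Complex.I * ζ * t) =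
        Complex.exp (Complex.I * ζ / N) * ((ζ - Complex.I) / (ζ + Complex.I)) ^ n *
          (ζ / (ζ + Complex.I)) ^ 5)
    (Λ : ℝ) (hΛ : 1 ≤ Λ) (h : Fin N → ℂ) (b : ℂ) (hb : ‖b‖ < 1) :
    ∫ z : E3, Wf om N Λ h z * (Dk (zt b / (2 * Λ)) ‖z‖ * (zp z / (‖z‖ : ℂ))) ^ 2 =
      ((c4 / (16 * Real.pi ^ 2) : ℝ) : ℂ) / (Λ : ℂ) ^ 4 * Complex.exp (Complex.I * zt b / N) *
        ((1 + b) / 2) ^ 5 * ∑ n : Fin N, h n * b ^ (n : ℕ) :=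
  Pool.Agent.Helper93.CE.W_int c4 hrad C0 N hN om hom1 hom2 hom3 hom Λ hΛ h b hb

/-- `κ' e^{i ζ(b)/N} ((1+b)/2)⁵` -/
noncomputable def wt (κ' : ℂ) (N : ℕ) (b : ℂ) : ℂ :=
  κ' * Complex.exp (Complex.I * zt b / N) * ((1 + b) / 2) ^ 5

theorem wt_bd (κ' : ℂ) (hκ : κ' ≠ 0) (N : ℕ) (hN : 1 ≤ N) (b : ℂ)
    (hb : ‖b‖ < 1 - 1 / (2 * (N : ℝ))) :
    ‖κ'‖ * Real.exp (-4) * (1 / (4 * (N : ℝ))) ^ 5 ≤ ‖wt κ' N b‖ ∧ wt κ' N b ≠ 0 := by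
  obtain ⟨h1, h2, h3, h4, h5⟩ := zt_bounds N hN b hb
  have hN' : (0 : ℝ) < N := by exact_mod_cast hN
  have hκ' : 0 < ‖κ'‖ := norm_pos_iff.2 hκ
  have h6 : ‖κ'‖ * Real.exp (-4) * (1 / (4 * (N : ℝ))) ^ 5 ≤ ‖wt κ' N b‖ := by
    unfold wt
    rw [norm_mul, norm_mul]
    gcongr
  refine ⟨h6, ?_⟩
  have : 0 < ‖κ'‖ * Real.exp (-4) * (1 / (4 * (N : ℝ))) ^ 5 := by positivity
  exact norm_pos_iff.1 (this.trans_le h6)

theorem wt_diff (κ' : ℂ) (N : ℕ) (hN : 1 ≤ N) (b : ℂ)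
    (hb : ‖b‖ < 1 - 1 / (2 * (N : ℝ))) : DifferentiableAt ℂ (wt κ' N) b := by
  obtain ⟨h1, h2, h3, h4, h5⟩ := zt_bounds N hN b hb
  unfold wt
  have e1 : DifferentiableAt ℂ (fun b => Complex.exp (Complex.I * zt b / N)) b :=
    ((h5.const_mul Complex.I).div_const (N : ℂ)).cexp
  have e2 : DifferentiableAt ℂ (fun b : ℂ => ((1 + b) / 2) ^ 5) b := by fun_prop
  exact (e1.const_mul κ').mul e2

theorem im_div_pos (z : ℂ) (Λ : ℝ) (hΛ : 0 < Λ) (hz : 0 < z.im) :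
    0 < (z / (2 * (Λ : ℂ))).im := by
  have : z / (2 * (Λ : ℂ)) = ((1 / (2 * Λ) : ℝ) : ℂ) * z := by
    push_cast; field_simp
  rw [this, Complex.im_ofReal_mul]
  positivity

theorem key_of_main (D : Dat) (hM : Main1 D) :
    ∃ (C1 : ℝ) (M N0 : ℕ), ∀ N : ℕ, N0 ≤ N → ∃ V : E3 → ℂ, Measurable V ∧
      (∃ B : ℝ, ∀ x, ‖V x‖ ≤ B) ∧ Integrable V volume ∧
      (∀ p : ℝ, 3 / 2 ≤ p → p ≤ 5 / 2 → Integrable (fun x => ‖V x‖ ^ p) volume ∧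
        ∫ x, ‖V x‖ ^ p ≤ C1) ∧
      ∃ s : Finset ℂ, s.card = N ∧ ∀ E ∈ s, E.re ≤ 0 ∧ 1 / (10 * (N : ℝ) ^ (2 * M)) ≤ ‖E‖ ∧
        ∃ U : L2, U ≠ 0 ∧ IsHu V U (E • U) := by
  obtain ⟨c, κ, k0, s0, Cm, hκ, hk0, hk01, hs0, hs01, hCm, hF0, hF⟩ := hM
  obtain ⟨C0, hC0, hlag⟩ := lag
  obtain ⟨c4, hc4, hrad⟩ := rad
  obtain ⟨Cw, hCw, hW⟩ := W_props C0 hC0
  obtain ⟨δ, hδ, d1, d2, d3, d4⟩ := D.exists_delta
  have hpi : (0 : ℝ) < Real.pi := Real.pi_pos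
  set κ' : ℂ := κ * ((c4 / (16 * Real.pi ^ 2) : ℝ) : ℂ) with hκ'
  have hκ'0 : κ' ≠ 0 := by
    refine mul_ne_zero hκ ?_
    have : c4 / (16 * Real.pi ^ 2) ≠ 0 := by positivity
    exact_mod_cast this
  set a : ℝ := ‖κ'‖ * Real.exp (-4) with ha
  have ha0 : 0 < a := mul_pos (norm_pos_iff.2 hκ'0) (Real.exp_pos _)
  set C2 : ℝ := 16384 * Cm / a with hC2
  have hC20 : 0 < C2 := by positivity
  set C3 : ℝ := 1024 * (9 * Cm * Cw * (3 + 66 * C2 * Cw)) / a with hC3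
  have hC30 : 0 < C3 := by positivity
  set G : ℝ := 2 + 2 / k0 + 12 * C2 * Cw / s0 + 54 * C2 * Cw + 6 * C3 with hG
  obtain ⟨Bv, hBv⟩ := (D.pVc c).bdd
  refine ⟨5 * (max 1 Bv) ^ (5 / 2 : ℝ) + 1, 60, ⌈G⌉₊, fun N hN => ?_⟩
  set x : ℝ := (N : ℝ) with hxdef
  have hGx : G ≤ x := (Nat.le_ceil G).trans (by rw [hxdef]; exact_mod_cast hN)
  obtain ⟨n1, n2, n3, n4, n5, n6, n7, n8⟩ :=
    fn_main_num x k0 s0 C2 Cw C3 G hk0 hs0 hC20 hCw hC30 rfl hGx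
  have hN1 : 1 ≤ N := by
    have : (1 : ℝ) ≤ (N : ℝ) := n1
    exact_mod_cast this
  have hx0 : 0 < x := by linarith
  set Λ : ℝ := x ^ 60 with hΛ
  have hΛ1 : 1 ≤ Λ := one_le_pow₀ n1
  have hΛ0 : 0 < Λ := by linarith
  have hΛc : (Λ : ℂ) ≠ 0 := by exact_mod_cast hΛ0.ne'
  obtain ⟨om, ho1, ho2, ho3, ho4⟩ := hlag N hN1
  have hWp := fun h : Fin N → ℂ => hW N om hN1 ho1 ho2 ho3 Λ hΛ1 h
  have hb1 : ∀ b : ℂ, ‖b‖ < 1 - 1 / (2 * x) → 0 < (zt b / (2 * (Λ : ℂ))).im ∧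
      ‖zt b / (2 * (Λ : ℂ))‖ ≤ 2 * x / Λ ∧ ‖zt b / (2 * (Λ : ℂ))‖ ≤ k0 ∧
      DifferentiableAt ℂ (fun b => zt b / (2 * (Λ : ℂ))) b ∧ ‖b‖ < 1 := by
    intro b hb
    obtain ⟨z1, z2, z3, z4, z5⟩ := zt_bounds N hN1 b hb
    have e : ‖zt b / (2 * (Λ : ℂ))‖ ≤ 2 * x / Λ := by
      rw [norm_div, norm_mul, Complex.norm_real, Real.norm_of_nonneg hΛ0.le, Complex.norm_ofNat]
      calc ‖zt b‖ / (2 * Λ) ≤ (4 * x) / (2 * Λ) := by gcongr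
        _ = 2 * x / Λ := by field_simp; norm_num
    refine ⟨im_div_pos _ _ hΛ0 z1, e, e.trans n2, z5.div_const _, ?_⟩
    have : 0 < 1 / (2 * x) := by positivity
    linarith
  set R : ℝ := 6 * C2 * x ^ 9 with hR
  have hR0 : 0 ≤ R := by positivity
  have hOut : ∀ h : Fin N → ℂ, ‖h‖ ≤ R →
      Out (Λ / x) (R * (Cw * x ^ 4 / Λ ^ 3)) (R * (Cw * x ^ 7)) (Wf om N Λ h) := by
    intro h hh
    obtain ⟨w1, w2, w3, w4, w5⟩ := hWp h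
    exact ⟨w1, w2, w3, fun y => (w4 y).trans (by gcongr), w5.trans (by gcongr)⟩
  have hdW : ∀ h h' : Fin N → ℂ,
      (∀ y, ‖Wf om N Λ h y - Wf om N Λ h' y‖ ≤ ‖h - h'‖ * (Cw * x ^ 4 / Λ ^ 3)) ∧
      ∫ y, ‖Wf om N Λ h y - Wf om N Λ h' y‖ ≤ ‖h - h'‖ * (Cw * x ^ 7) := by
    intro h h'
    obtain ⟨w1, w2, w3, w4, w5⟩ := hWp (h - h')
    simp only [Wf_sub]
    exact ⟨w4, w5⟩
  have hmain : ∀ h h' : Fin N → ℂ, ‖h‖ ≤ R → ‖h'‖ ≤ R → ∀ b : ℂ, ‖b‖ < 1 - 1 / (2 * x) →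
      IsUnit (D.B c (zt b / (2 * (Λ : ℂ))) (Wf om N Λ h)) ∧
      ‖Fd D.c0 (D.B c (zt b / (2 * (Λ : ℂ))) (Wf om N Λ h)) -
        Fd D.c0 (D.B c (zt b / (2 * (Λ : ℂ))) (Wf om N Λ h')) -
          κ * ∫ z, (Wf om N Λ h z - Wf om N Λ h' z) *
            (Dk (zt b / (2 * (Λ : ℂ))) ‖z‖ * (zp z / (‖z‖ : ℂ))) ^ 2‖ ≤
        (9 * Cm * Cw * (3 + 66 * C2 * Cw)) * x ^ 31 / Λ ^ 5 * ‖h - h'‖ := by
    intro h h' hh hh' b hb
    obtain ⟨q1, q2, q3, q4, q5⟩ := hb1 b hb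
    obtain ⟨m1, m2, m3⟩ := fn_small x Λ ‖zt b / (2 * (Λ : ℂ))‖ C2 Cw n1 hΛ1 (norm_nonneg _) q2
      hC20 hCw
    obtain ⟨f1, f2⟩ := hF (zt b / (2 * (Λ : ℂ))) (Λ / x) Λ (Cw * x ^ 4 / Λ ^ 3) (Cw * x ^ 7) R
      ‖h - h'‖ (Wf om N Λ h) (Wf om N Λ h') q1.le q3 n3 hΛ0 (by positivity) (by positivity) hR0
      (norm_nonneg _) (hOut h hh) (hOut h' hh') (hdW h h').1 (hdW h h').2 (m2.trans n4)
      (m3.trans n5)
    exact ⟨f1, f2.trans (fn_lip x Λ ‖zt b / (2 * (Λ : ℂ))‖ C2 Cw Cm ‖h - h'‖ n1 hΛ1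
      (norm_nonneg _) q2 hC20 hCw hCm (norm_nonneg _))⟩
  have hex : ∃ h : Fin N → ℂ, ‖h‖ ≤ R ∧ ∀ b : ℂ, b ^ N = (1 / 10 : ℂ) ^ N →
      ∑ n : Fin N, h n * b ^ (n : ℕ) = ∑ n : Fin N, h n * b ^ (n : ℕ) -
        (Λ : ℂ) ^ 4 * Fd D.c0 (D.B c (zt b / (2 * (Λ : ℂ))) (Wf om N Λ h)) / wt κ' N b := by
    refine interp_fix N hN1 R (C2 * x ^ 9) (C3 * x ^ 36 / Λ) hR0
      (fun h b => ∑ n : Fin N, h n * b ^ (n : ℕ) -
        (Λ : ℂ) ^ 4 * Fd D.c0 (D.B c (zt b / (2 * (Λ : ℂ))) (Wf om N Λ h)) / wt κ' N b)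
      ?_ ?_ ?_ ?_ ?_
    · -- differentiability
      intro h hh b hb
      rw [mem_ball_zero_iff] at hb
      obtain ⟨q1, q2, q3, q4, q5⟩ := hb1 b hb
      apply DifferentiableAt.differentiableWithinAt
      have e1 : DifferentiableAt ℂ (fun b : ℂ => ∑ n : Fin N, h n * b ^ (n : ℕ)) b := by
        fun_prop
      have e2 := fd_diff D c (Wf om N Λ h) (hWp h).1 (fun b => zt b / (2 * (Λ : ℂ))) b q4 q1
        (hmain h h hh hh b hb).1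
      exact e1.sub ((e2.const_mul ((Λ : ℂ) ^ 4)).div (wt_diff κ' N hN1 b hb)
        (wt_bd κ' hκ'0 N hN1 b hb).2)
    · -- size at 0
      intro b hb
      rw [mem_ball_zero_iff] at hb
      obtain ⟨q1, q2, q3, q4, q5⟩ := hb1 b hb
      obtain ⟨v1, v2⟩ := wt_bd κ' hκ'0 N hN1 b hb
      have e1 := hF0 (zt b / (2 * (Λ : ℂ))) q1.le q3
      simp only [Wf_zero, Pi.zero_apply, zero_mul, Finset.sum_const_zero, zero_sub, norm_neg,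
        norm_div, norm_mul, norm_pow, Complex.norm_real, Real.norm_of_nonneg hΛ0.le]
      rw [← ha] at v1
      calc Λ ^ 4 * ‖Fd D.c0 (D.B c (zt b / (2 * (Λ : ℂ))) fun _ => 0)‖ / ‖wt κ' N b‖
          ≤ Λ ^ 4 * (Cm * (2 * x / Λ) ^ 4) / (a * (1 / (4 * x)) ^ 5) := by
            gcongr
            refine e1.trans ?_
            gcongr
        _ = C2 * x ^ 9 := by rw [hC2]; field_simp; norm_num
    · -- Lipschitz
      intro h h' hh hh' b hb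
      rw [mem_ball_zero_iff] at hb
      obtain ⟨q1, q2, q3, q4, q5⟩ := hb1 b hb
      obtain ⟨v1, v2⟩ := wt_bd κ' hκ'0 N hN1 b hb
      obtain ⟨-, f2⟩ := hmain h h' hh hh' b hb
      have hint := W_int' c4 hrad C0 N hN1 om ho1 ho2 ho3 ho4 Λ hΛ1 (h - h') b q5
      have hsum : ∑ n : Fin N, (h - h') n * b ^ (n : ℕ) =
          ∑ n : Fin N, h n * b ^ (n : ℕ) - ∑ n : Fin N, h' n * b ^ (n : ℕ) := by
        rw [← Finset.sum_sub_distrib]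
        exact Finset.sum_congr rfl fun n _ => by simp [sub_mul]
      rw [hsum] at hint
      simp only [Wf_sub] at f2
      rw [hint] at f2
      rw [← ha] at v1
      generalize hF1 : Fd D.c0 (D.B c (zt b / (2 * (Λ : ℂ))) (Wf om N Λ h)) = F1 at f2 ⊢
      generalize hF2 : Fd D.c0 (D.B c (zt b / (2 * (Λ : ℂ))) (Wf om N Λ h')) = F2 at f2 ⊢
      generalize hS1 : ∑ n : Fin N, h n * b ^ (n : ℕ) = S1 at f2 ⊢
      generalize hS2 : ∑ n : Fin N, h' n * b ^ (n : ℕ) = S2 at f2 ⊢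
      have key : S1 - (Λ : ℂ) ^ 4 * F1 / wt κ' N b - (S2 - (Λ : ℂ) ^ 4 * F2 / wt κ' N b) =
          - ((Λ : ℂ) ^ 4 * (F1 - F2 - κ * (((c4 / (16 * Real.pi ^ 2) : ℝ) : ℂ) / (Λ : ℂ) ^ 4 *
            Complex.exp (Complex.I * zt b / N) * ((1 + b) / 2) ^ 5 * (S1 - S2))) / wt κ' N b) := by
        have e : κ * (((c4 / (16 * Real.pi ^ 2) : ℝ) : ℂ) / (Λ : ℂ) ^ 4 *
            Complex.exp (Complex.I * zt b / N) * ((1 + b) / 2) ^ 5 * (S1 - S2)) =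
            wt κ' N b / (Λ : ℂ) ^ 4 * (S1 - S2) := by
          unfold wt; rw [hκ']; ring
        rw [e]
        field_simp
        ring
      rw [key, norm_neg, norm_div, norm_mul, norm_pow, Complex.norm_real,
        Real.norm_of_nonneg hΛ0.le]
      calc _ ≤ Λ ^ 4 * ((9 * Cm * Cw * (3 + 66 * C2 * Cw)) * x ^ 31 / Λ ^ 5 * ‖h - h'‖) /
            (a * (1 / (4 * x)) ^ 5) := by gcongr
        _ = C3 * x ^ 36 / Λ * ‖h - h'‖ := by rw [hC3]; field_simp; norm_num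
    · rw [hR]; linarith
    · linarith
  obtain ⟨h, hh, hfix⟩ := hex
  obtain ⟨w1, w2, w3, w4, w5⟩ := hWp h
  have hV : Pot (fun y => Vc D.f c y + Wf om N Λ h y) := pot_add (D.pVc c) w1
  refine ⟨fun y => Vc D.f c y + Wf om N Λ h y, hV.meas, hV.bdd, hV.int, ?_, ?_⟩
  · intro p hp hp2
    refine cost (Vc D.f c) (Wf om N Λ h) (max 1 Bv) (6 * C2 * Cw * x ^ 13 / Λ ^ 3)
      (6 * C2 * Cw * x ^ 16) (D.pVc c).meas (le_max_left _ _)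
      (fun y => (hBv y).trans (le_max_right _ _)) (Vc_out D.f c) w1.meas n7 ?_ w1.int ?_ ?_
      n8 p hp hp2
    · intro y
      refine (w4 y).trans ?_
      calc ‖h‖ * (Cw * x ^ 4 / Λ ^ 3) ≤ R * (Cw * x ^ 4 / Λ ^ 3) := by gcongr
        _ = _ := by rw [hR]; ring
    · refine w5.trans ?_
      calc ‖h‖ * (Cw * x ^ 7) ≤ R * (Cw * x ^ 7) := by gcongr
        _ = _ := by rw [hR]; ring
    · intro y hy
      exact w2 y (hy.trans_le (by linarith))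
  · obtain ⟨s, hs, hsE⟩ := nodes N hN1 Λ hΛ1
    refine ⟨s, hs, fun E hE => ?_⟩
    obtain ⟨b, hbN, hb, hEb, hEre, hEn⟩ := hsE E hE
    have hbx : ‖b‖ < 1 - 1 / (2 * x) := by
      rw [hb]
      have : 1 / (2 * x) ≤ 1 / 2 := by
        apply one_div_le_one_div_of_le <;> linarith
      linarith
    obtain ⟨q1, q2, q3, q4, q5⟩ := hb1 b hbx
    refine ⟨hEre, ?_, ?_⟩
    · have e : Λ ^ 2 = x ^ (2 * 60) := by rw [hΛ]; ring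
      rw [← e]; exact hEn
    · have hF := hfix b hbN
      have hFd : Fd D.c0 (D.B c (zt b / (2 * (Λ : ℂ))) (Wf om N Λ h)) = 0 := by
        have h1 : (Λ : ℂ) ^ 4 * Fd D.c0 (D.B c (zt b / (2 * (Λ : ℂ))) (Wf om N Λ h)) /
            wt κ' N b = 0 := by linear_combination hF
        rw [div_eq_zero_iff] at h1
        rcases h1 with h1 | h1
        · exact (mul_eq_zero.1 h1).resolve_left (pow_ne_zero _ hΛc)
        · exact absurd h1 (wt_bd κ' hκ'0 N hN1 b hbx).2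
      obtain ⟨u, hu, hfixu⟩ := sol_of_Fd D.c0
        (T (zt b / (2 * (Λ : ℂ))) (fun y => Vc D.f c y + Wf om N Λ h y))
        (hmain h h hh hh b hbx).1 δ hδ d1 d2 d3 d4 hFd
      obtain ⟨U, hU, hU2⟩ := eigen_of_fix (zt b / (2 * (Λ : ℂ))) q1 _ hV.meas hV.bdd hV.int
        (ev u) (meas_ev u) ⟨‖u‖, ev_le u⟩ (by
          by_contra hcon
          push Not at hcon
          exact hu (ev_ext fun y => by rw [hcon, ev_zero])) (by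
          intro y
          have h1 := congrArg (fun v => ev v y) hfixu
          simp only [ev_add, ev_zero] at h1
          rw [T_spec _ q1.le _ hV] at h1
          exact eq_neg_of_add_eq_zero_left h1)
      rw [hEb]
      exact ⟨U, hU, hU2⟩

end Pool.Agent.Helper17.CE
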