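import Pool.Agent.Helper17.CE.Lag2

set_option autoImplicit false

namespace Pool.Agent.Helper17.CE
open MeasureTheory Set Filter Topology

noncomputable def om (N n : ℕ) (t : ℝ) : ℝ :=
  if t < 1 / (N:ℝ) then 0 else
    4 * (Rm 1 n (t - 1/N) - 3 * Rm 2 n (t - 1/N) + 3 * Rm 3 n (t - 1/N) - Rm 4 n (t - 1/N)) -
    16 * t⁻¹ * (Rm 2 n (t - 1/N) - 2 * Rm 3 n (t - 1/N) + Rm 4 n (t - 1/N)) +
    32 * t⁻¹ ^ 2 * (Rm 3 n (t - 1/N) - Rm 4 n (t - 1/N)) - 32 * t⁻¹ ^ 3 * Rm 4 n (t - 1/N)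

theorem om_meas (N n : ℕ) : Measurable (om N n) := by
  have h1 : Measurable fun t : ℝ => Rm 1 n (t - 1/N) := by
    have := (Rm_cont 1 n).measurable; fun_prop
  have h2 : Measurable fun t : ℝ => Rm 2 n (t - 1/N) := by
    have := (Rm_cont 2 n).measurable; fun_prop
  have h3 : Measurable fun t : ℝ => Rm 3 n (t - 1/N) := by
    have := (Rm_cont 3 n).measurable; fun_prop
  have h4 : Measurable fun t : ℝ => Rm 4 n (t - 1/N) := by
    have := (Rm_cont 4 n).measurable; fun_prop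
  unfold om
  refine Measurable.ite measurableSet_Iio measurable_const ?_
  fun_prop

theorem om_bdd (N : ℕ) (hN : 1 ≤ N) (n : ℕ) (hn : n ≤ N) (t : ℝ) :
    |om N n t| ≤ 1920 * (N:ℝ) ^ 3 * Real.exp (- t / (4 * N)) := by
  have hNr : (1:ℝ) ≤ N := by exact_mod_cast hN
  have hN0 : (0:ℝ) < N := by linarith
  unfold om
  split_ifs with h
  · rw [abs_zero]; positivity
  · push Not at h
    have hs : 0 ≤ t - 1 / (N:ℝ) := by linarith
    have ht0 : 0 < t := lt_of_lt_of_le (by positivity) h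
    have hu : |t⁻¹| ≤ N := by
      rw [abs_of_pos (inv_pos.2 ht0)]
      rw [one_div] at h
      exact inv_le_of_inv_le₀ hN0 h
    set E := Real.exp (- ((t - 1 / (N:ℝ)) / (4 * N))) with hE
    have hE0 : 0 < E := Real.exp_pos _
    have b1 : |Rm 1 n (t - 1/N)| ≤ 5 * E := Rm_le N hN n hn 0 (by norm_num) _ hs
    have b2 : |Rm 2 n (t - 1/N)| ≤ 5 * E := Rm_le N hN n hn 1 (by norm_num) _ hs
    have b3 : |Rm 3 n (t - 1/N)| ≤ 5 * E := Rm_le N hN n hn 2 (by norm_num) _ hs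
    have b4 : |Rm 4 n (t - 1/N)| ≤ 5 * E := Rm_le N hN n hn 3 (by norm_num) _ hs
    generalize Rm 1 n (t - 1/N) = r1 at b1 ⊢
    generalize Rm 2 n (t - 1/N) = r2 at b2 ⊢
    generalize Rm 3 n (t - 1/N) = r3 at b3 ⊢
    generalize Rm 4 n (t - 1/N) = r4 at b4 ⊢
    have c1 : |4 * (r1 - 3 * r2 + 3 * r3 - r4)| ≤ 160 * E := by
      rw [abs_le] at *
      constructor <;> linarith [b1.1, b1.2, b2.1, b2.2, b3.1, b3.2, b4.1, b4.2]
    have c2 : |r2 - 2 * r3 + r4| ≤ 20 * E := by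
      rw [abs_le] at *
      constructor <;> linarith [b1.1, b1.2, b2.1, b2.2, b3.1, b3.2, b4.1, b4.2]
    have c3 : |r3 - r4| ≤ 10 * E := by
      rw [abs_le] at *
      constructor <;> linarith [b1.1, b1.2, b2.1, b2.2, b3.1, b3.2, b4.1, b4.2]
    have d2 : |16 * t⁻¹ * (r2 - 2 * r3 + r4)| ≤ 320 * N * E := by
      rw [abs_mul, abs_mul, abs_of_pos (by norm_num : (0:ℝ) < 16)]
      calc 16 * |t⁻¹| * |r2 - 2 * r3 + r4| ≤ 16 * N * (20 * E) := by gcongr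
        _ = _ := by ring
    have d3 : |32 * t⁻¹ ^ 2 * (r3 - r4)| ≤ 320 * N ^ 2 * E := by
      rw [abs_mul, abs_mul, abs_of_pos (by norm_num : (0:ℝ) < 32), abs_pow]
      calc 32 * |t⁻¹| ^ 2 * |r3 - r4| ≤ 32 * (N:ℝ) ^ 2 * (10 * E) := by gcongr
        _ = _ := by ring
    have d4 : |32 * t⁻¹ ^ 3 * r4| ≤ 160 * N ^ 3 * E := by
      rw [abs_mul, abs_mul, abs_of_pos (by norm_num : (0:ℝ) < 32), abs_pow]
      calc 32 * |t⁻¹| ^ 3 * |r4| ≤ 32 * (N:ℝ) ^ 3 * (5 * E) := by gcongr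
        _ = _ := by ring
    have hN2 : (N:ℝ) ≤ N ^ 3 := by
      calc (N:ℝ) = N ^ 1 := (pow_one _).symm
        _ ≤ N ^ 3 := pow_le_pow_right₀ hNr (by norm_num)
    have hN3 : (N:ℝ) ^ 2 ≤ N ^ 3 := pow_le_pow_right₀ hNr (by norm_num)
    have hN1 : (1:ℝ) ≤ N ^ 3 := one_le_pow₀ hNr
    have tot : |4 * (r1 - 3 * r2 + 3 * r3 - r4) - 16 * t⁻¹ * (r2 - 2 * r3 + r4) +
        32 * t⁻¹ ^ 2 * (r3 - r4) - 32 * t⁻¹ ^ 3 * r4| ≤ 960 * N ^ 3 * E := by
      have a1 := abs_sub (4 * (r1 - 3 * r2 + 3 * r3 - r4) - 16 * t⁻¹ * (r2 - 2 * r3 + r4) +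
        32 * t⁻¹ ^ 2 * (r3 - r4)) (32 * t⁻¹ ^ 3 * r4)
      have a2 := abs_add_le (4 * (r1 - 3 * r2 + 3 * r3 - r4) - 16 * t⁻¹ * (r2 - 2 * r3 + r4))
        (32 * t⁻¹ ^ 2 * (r3 - r4))
      have a3 := abs_sub (4 * (r1 - 3 * r2 + 3 * r3 - r4)) (16 * t⁻¹ * (r2 - 2 * r3 + r4))
      have m1 : E ≤ N ^ 3 * E := by nlinarith
      have m2 : N * E ≤ N ^ 3 * E := mul_le_mul_of_nonneg_right hN2 hE0.le
      have m3 : (N:ℝ) ^ 2 * E ≤ N ^ 3 * E := mul_le_mul_of_nonneg_right hN3 hE0.le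
      linarith
    refine tot.trans ?_
    have hE2 : E ≤ 2 * Real.exp (- t / (4 * N)) := by
      have e : - ((t - 1 / (N:ℝ)) / (4 * N)) = 1 / (4 * N ^ 2) + - t / (4 * N) := by
        field_simp; ring
      rw [hE, e, Real.exp_add]
      apply mul_le_mul_of_nonneg_right _ (Real.exp_pos _).le
      have h1 : 1 / (4 * (N:ℝ) ^ 2) ≤ 1 / 4 := by
        apply one_div_le_one_div_of_le (by norm_num)
        nlinarith
      have h2 : Real.exp (1 / (4 * (N:ℝ) ^ 2)) ≤ Real.exp (1 / 4) := Real.exp_le_exp.2 h1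
      have h3 : Real.exp (1 / 4) ≤ 2 := by
        have h4 : Real.exp (1 / 4) ≤ Real.exp (Real.log 2) := by
          apply Real.exp_le_exp.2
          have := Real.log_two_gt_d9
          linarith
        rwa [Real.exp_log (by norm_num)] at h4
      linarith
    calc 960 * (N:ℝ) ^ 3 * E ≤ 960 * (N:ℝ) ^ 3 * (2 * Real.exp (- t / (4 * N))) :=
          mul_le_mul_of_nonneg_left hE2 (by positivity)
      _ = _ := by ring

theorem Gd_Rm (N m n : ℕ) : Gd (1 / (N:ℝ)) (fun t => ((Rm m n (t - 1/N) : ℝ) : ℂ)) := by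
  obtain ⟨B, hB⟩ := Rm_bdd m n
  refine ⟨?_, B, fun t ht => ?_⟩
  · have := (Rm_cont m n).measurable
    fun_prop
  · rw [Complex.norm_real]
    exact hB _ (by linarith)

theorem om_lap (N : ℕ) (hN : 1 ≤ N) (n : ℕ) (ζ : ℂ) (hζ : 0 < ζ.im) :
    ∫ t in Ioi (0 : ℝ), (om N n t : ℂ) * (1 / (t : ℂ) - Complex.I * ζ / 2) ^ 2 *
          Complex.exp (Complex.I * ζ * t) =
        Complex.exp (Complex.I * ζ / N) * ((ζ - Complex.I) / (ζ + Complex.I)) ^ n *
          (ζ / (ζ + Complex.I)) ^ 5 := by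
  have hNr : (1:ℝ) ≤ N := by exact_mod_cast hN
  have hN0 : (0:ℝ) < N := by linarith
  have ha : (0:ℝ) < 1 / N := by positivity
  set u : ℝ → ℂ := fun t => (t : ℂ)⁻¹ with hu
  set X : ℝ → ℂ := fun t => ((Rm 2 n (t - 1/N) - 2 * Rm 3 n (t - 1/N) + Rm 4 n (t - 1/N) : ℝ) : ℂ)
    with hX
  set Y : ℝ → ℂ := fun t => ((Rm 3 n (t - 1/N) - Rm 4 n (t - 1/N) : ℝ) : ℂ) with hY
  set Z : ℝ → ℂ := fun t => ((Rm 4 n (t - 1/N) : ℝ) : ℂ) with hZ
  set W : ℝ → ℂ := fun t => ((Rm 1 n (t - 1/N) - 3 * Rm 2 n (t - 1/N) + 3 * Rm 3 n (t - 1/N) -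
    Rm 4 n (t - 1/N) : ℝ) : ℂ) with hW
  have dR : ∀ m : ℕ, ∀ t : ℝ, HasDerivAt (fun t : ℝ => Rm (m + 1) n (t - 1/N))
      (Rm m n (t - 1/N) - Rm (m + 1) n (t - 1/N)) t := by
    intro m t
    have h1 : HasDerivAt (fun t : ℝ => t - 1/N) 1 t := (hasDerivAt_id t).sub_const _
    have h := (Rm_deriv m n (t - 1/N)).comp t h1
    rw [mul_one] at h
    exact h
  have dX : ∀ t, HasDerivAt X (W t) t := by
    intro t
    have h := (((dR 1 t).sub ((dR 2 t).const_mul 2)).add (dR 3 t)).ofReal_comp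
    refine h.congr_deriv ?_
    simp only [hW]
    congr 1
    ring
  have dY : ∀ t, HasDerivAt Y (X t) t := by
    intro t
    have h := ((dR 2 t).sub (dR 3 t)).ofReal_comp
    refine h.congr_deriv ?_
    simp only [hX]
    congr 1
    ring
  have dZ : ∀ t, HasDerivAt Z (Y t) t := fun t => (dR 3 t).ofReal_comp
  have du : ∀ t : ℝ, 0 < t → HasDerivAt u (-(u t) ^ 2) t := by
    intro t ht
    have h1 : HasDerivAt (fun t : ℝ => (t : ℂ)) 1 t := Complex.ofRealCLM.hasDerivAt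
    have h2 := h1.inv (by exact_mod_cast ht.ne')
    refine h2.congr_deriv ?_
    simp only [hu]
    field_simp
  have gu : Gd (1 / (N:ℝ)) u := by
    refine ⟨by fun_prop, N, fun t ht => ?_⟩
    have ht0 : 0 < t := ha.trans ht
    rw [hu]
    simp only [norm_inv, Complex.norm_real, Real.norm_eq_abs, abs_of_pos ht0]
    rw [one_div] at ht
    exact inv_le_of_inv_le₀ hN0 ht.le
  have r1 := Gd_Rm N 1 n
  have r2 := Gd_Rm N 2 n
  have r3 := Gd_Rm N 3 n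
  have r4 := Gd_Rm N 4 n
  have c := fun z => Gd.const (1 / (N:ℝ)) z
  have gX : Gd (1 / (N:ℝ)) X := by
    have := (r2.sub ((c 2).mul r3)).add r4
    rw [hX]; push_cast; exact this
  have gY : Gd (1 / (N:ℝ)) Y := by
    have := r3.sub r4
    rw [hY]; push_cast; exact this
  have gZ : Gd (1 / (N:ℝ)) Z := r4
  have gW : Gd (1 / (N:ℝ)) W := by
    have := ((r1.sub ((c 3).mul r2)).add ((c 3).mul r3)).sub r4
    rw [hW]; push_cast; exact this
  have gO : Gd (1 / (N:ℝ)) (fun t => (4 * W t - 16 * u t * X t + 32 * u t ^ 2 * Y t -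
      32 * u t ^ 3 * Z t) * (u t - (Complex.I * ζ) / 2) ^ 2) :=
    (((((c 4).mul gW).sub (((c 16).mul gu).mul gX)).add (((c 32).mul (gu.pow 2)).mul gY)).sub
      (((c 32).mul (gu.pow 3)).mul gZ)).mul ((gu.sub (c (Complex.I * ζ / 2))).pow 2)
  have gT : Gd (1 / (N:ℝ)) (fun t => (Complex.I * ζ) ^ 5 * Z t) := (c _).mul gZ
  have gG : Gd (1 / (N:ℝ)) (fun t =>
      (4 * u t ^ 2 - 4 * (Complex.I * ζ) * u t + (Complex.I * ζ) ^ 2) * X t +
        (-8 * u t ^ 3 + 8 * (Complex.I * ζ) * u t ^ 2 - (Complex.I * ζ) ^ 3) * Y t +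
        (8 * u t ^ 4 - 8 * (Complex.I * ζ) * u t ^ 3 + (Complex.I * ζ) ^ 4) * Z t) :=
    (((((c 4).mul (gu.pow 2)).sub ((c (4 * (Complex.I * ζ))).mul gu)).add
      (c ((Complex.I * ζ) ^ 2))).mul gX).add
      (((((c (-8)).mul (gu.pow 3)).add ((c (8 * (Complex.I * ζ))).mul (gu.pow 2))).sub
      (c ((Complex.I * ζ) ^ 3))).mul gY) |>.add
      (((((c 8).mul (gu.pow 4)).sub ((c (8 * (Complex.I * ζ))).mul (gu.pow 3))).add
      (c ((Complex.I * ζ) ^ 4))).mul gZ)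
  have hmain := integral_Ioi_of_hasDerivAt_of_tendsto'
    (fun t (ht : t ∈ Ici (1 / (N:ℝ))) => deriv_G ζ u X Y Z W t (du t (ha.trans_le ht)) (dX t) (dY t)
      (dZ t)) ((gO.add gT).int ζ hζ) (gG.tendsto ζ hζ)
  have hsplit : (fun t : ℝ => ((4 * W t - 16 * u t * X t + 32 * u t ^ 2 * Y t - 32 * u t ^ 3 * Z t) *
        (u t - (Complex.I * ζ) / 2) ^ 2 + (Complex.I * ζ) ^ 5 * Z t) *
        Complex.exp (Complex.I * ζ * t)) = fun t : ℝ =>
      ((4 * W t - 16 * u t * X t + 32 * u t ^ 2 * Y t - 32 * u t ^ 3 * Z t) *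
        (u t - (Complex.I * ζ) / 2) ^ 2) * Complex.exp (Complex.I * ζ * t) +
      (Complex.I * ζ) ^ 5 * (Z t * Complex.exp (Complex.I * ζ * t)) := by
    ext t; ring
  rw [hsplit, integral_add (gO.int ζ hζ) ((gZ.int ζ hζ).const_mul _), integral_const_mul] at hmain
  have z4 : Z (1 / N) = 0 := by simp only [hZ, sub_self]; rw [Rm_zero]; simp
  have z3 : Y (1 / N) = 0 := by simp only [hY, sub_self]; rw [Rm_zero, Rm_zero]; simp
  have z2 : X (1 / N) = 0 := by simp only [hX, sub_self]; rw [Rm_zero, Rm_zero, Rm_zero]; simp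
  rw [z4, z3, z2] at hmain
  simp only [mul_zero, add_zero, zero_mul, sub_zero] at hmain
  -- the integral of `Z`
  have hZint : ∫ t in Ioi (1 / (N:ℝ)), Z t * Complex.exp (Complex.I * ζ * t) =
      Complex.exp (Complex.I * ζ / N) * Lap (Rm 4 n) ζ := by
    have h1 : (fun t : ℝ => Z t * Complex.exp (Complex.I * ζ * t)) = fun t : ℝ =>
        (fun s : ℝ => Complex.exp (Complex.I * ζ / N) * ((Rm 4 n s : ℂ) *
          Complex.exp (Complex.I * ζ * s))) (t - 1 / N) := by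
      ext t
      simp only [hZ]
      have : Complex.exp (Complex.I * ζ * t) = Complex.exp (Complex.I * ζ / N) *
          Complex.exp (Complex.I * ζ * ((t - 1 / N : ℝ) : ℂ)) := by
        rw [← Complex.exp_add]; congr 1; push_cast; ring
      rw [this]; ring
    rw [h1]
    refine (shift (fun s : ℝ => Complex.exp (Complex.I * ζ / N) * ((Rm 4 n s : ℂ) *
          Complex.exp (Complex.I * ζ * s))) (1 / (N:ℝ))).trans ?_
    rw [integral_const_mul]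
    rfl
  rw [hZint, Lap_Rm 4 n ζ hζ] at hmain
  -- the integral of `om`
  have hom : ∫ t in Ioi (0 : ℝ), (om N n t : ℂ) * (1 / (t : ℂ) - Complex.I * ζ / 2) ^ 2 *
          Complex.exp (Complex.I * ζ * t) = ∫ t in Ioi (1 / (N:ℝ)),
      ((4 * W t - 16 * u t * X t + 32 * u t ^ 2 * Y t - 32 * u t ^ 3 * Z t) *
        (u t - (Complex.I * ζ) / 2) ^ 2) * Complex.exp (Complex.I * ζ * t) := by
    have h1 : ∫ t in Ioi (0 : ℝ), (om N n t : ℂ) * (1 / (t : ℂ) - Complex.I * ζ / 2) ^ 2 *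
          Complex.exp (Complex.I * ζ * t) = ∫ t in Ioi (1 / (N:ℝ)), (om N n t : ℂ) *
            (1 / (t : ℂ) - Complex.I * ζ / 2) ^ 2 * Complex.exp (Complex.I * ζ * t) := by
      apply setIntegral_eq_of_subset_of_forall_sdiff_eq_zero measurableSet_Ioi
        (Ioi_subset_Ioi ha.le)
      intro t ht
      have ht2 : t ≤ 1 / (N:ℝ) := not_lt.1 ht.2
      have : om N n t = 0 := by
        rcases lt_or_eq_of_le ht2 with h | h
        · simp only [om, if_pos h]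
        · rw [om, h]; simp [Rm_zero]
      rw [this]; simp
    rw [h1]
    apply setIntegral_congr_fun measurableSet_Ioi
    intro t ht
    have ht2 : ¬ t < 1 / (N:ℝ) := not_lt.2 (le_of_lt ht)
    simp only [om, if_neg ht2, hW, hX, hY, hZ, hu]
    push_cast
    ring
  rw [hom]
  have hI5 : Complex.I ^ 5 * Complex.I ^ 5 = -1 := by
    have : Complex.I ^ 5 * Complex.I ^ 5 = (Complex.I ^ 2) ^ 5 := by ring
    rw [this, Complex.I_sq]; norm_num
  have e : (Complex.I * ζ) ^ 5 * (Complex.exp (Complex.I * ζ / N) *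
      ((Complex.I / (ζ + Complex.I)) ^ (4 + 1) * ((ζ - Complex.I) / (ζ + Complex.I)) ^ n)) =
      - (Complex.exp (Complex.I * ζ / N) * ((ζ - Complex.I) / (ζ + Complex.I)) ^ n *
          (ζ / (ζ + Complex.I)) ^ 5) := by
    have h1 : (Complex.I / (ζ + Complex.I)) ^ (4 + 1) = Complex.I ^ 5 * ((ζ + Complex.I)⁻¹) ^ 5 := by
      rw [div_eq_mul_inv, mul_pow]
    have h2 : (ζ / (ζ + Complex.I)) ^ 5 = ζ ^ 5 * ((ζ + Complex.I)⁻¹) ^ 5 := by
      rw [div_eq_mul_inv, mul_pow]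
    rw [h1, h2, mul_pow]
    linear_combination (ζ ^ 5 * ((ζ + Complex.I)⁻¹) ^ 5 * Complex.exp (Complex.I * ζ / N) *
      ((ζ - Complex.I) / (ζ + Complex.I)) ^ n) * hI5
  rw [e] at hmain
  linear_combination hmain

/-- Part L -/
theorem lag : ∃ C : ℝ, 0 < C ∧ ∀ N : ℕ, 1 ≤ N → ∃ om : ℕ → ℝ → ℝ,
    (∀ n, Measurable (om n)) ∧ (∀ n t, t < 1 / (N : ℝ) → om n t = 0) ∧
    (∀ n ≤ N, ∀ t, |om n t| ≤ C * (N : ℝ) ^ 3 * Real.exp (- t / (4 * N))) ∧
    ∀ n, ∀ ζ : ℂ, 0 < ζ.im →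
      ∫ t in Set.Ioi (0 : ℝ), (om n t : ℂ) * (1 / (t : ℂ) - Complex.I * ζ / 2) ^ 2 *
          Complex.exp (Complex.I * ζ * t) =
        Complex.exp (Complex.I * ζ / N) * ((ζ - Complex.I) / (ζ + Complex.I)) ^ n *
          (ζ / (ζ + Complex.I)) ^ 5 := by
  refine ⟨1920, by norm_num, fun N hN => ⟨om N, om_meas N, fun n t ht => by simp only [om, if_pos ht],
    fun n hn t => om_bdd N hN n hn t, fun n ζ hζ => om_lap N hN n ζ hζ⟩⟩

end Pool.Agent.Helper17.CE
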