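import Pool.Agent.Helper16.CE.Mn
import Pool.Agent.Helper78.CE.IP
import Pool.Agent.Helper96.CE.F
import Pool.Agent.Helper61.CE.NdCoEn
import Pool.Agent.Helper18.CE.W1
import Pool.Agent.Helper93.CE.W2
import Pool.Agent.Helper17.CE.Lag

set_option autoImplicit false

namespace Pool.Agent.Helper17.CE
open MeasureTheory Pool.Agent.Helper16.CE
open Pool.Agent.Helper18.CE (Wf W_props)
open Pool.Agent.Helper61.CE (zt zt_bounds nodes cost)
open scoped ENNReal

theorem Wf_sub (om : ℕ → ℝ → ℝ) (N : ℕ) (Λ : ℝ) (h h' : Fin N → ℂ) (z : E3) :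
    Wf om N Λ h z - Wf om N Λ h' z = Wf om N Λ (h - h') z := by
  unfold Wf
  have : ∑ n : Fin N, (h - h') n * (om n (‖z‖ / Λ) : ℂ) =
      ∑ n : Fin N, h n * (om n (‖z‖ / Λ) : ℂ) - ∑ n : Fin N, h' n * (om n (‖z‖ / Λ) : ℂ) := by
    rw [← Finset.sum_sub_distrib]
    refine Finset.sum_congr rfl fun n _ => ?_
    simp [sub_mul]
  rw [this]; ring

theorem Wf_zero (om : ℕ → ℝ → ℝ) (N : ℕ) (Λ : ℝ) :
    Wf om N Λ 0 = fun _ => 0 := by
  funext z
  unfold Wf
  simp

theorem gen_diff_B {A : Type*} [NormedRing A] [NormedAlgebra ℂ A] (g : ℂ → A) (X Y : A)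
    (k : ℂ → ℂ) (z : ℂ) (hk : DifferentiableAt ℂ k z) (hg : DifferentiableAt ℂ g (k z)) :
    DifferentiableAt ℂ (fun b : ℂ => X + g (k b) + Y) z := by
  have h : DifferentiableAt ℂ (fun b : ℂ => g (k b)) z := hg.comp z hk
  exact (h.const_add X).add_const Y

theorem fd_diff (D : Dat) (c : ℂ) (W : E3 → ℂ) (hW : Pot W) (k : ℂ → ℂ) (b : ℂ)
    (hk : DifferentiableAt ℂ k b) (hkb : 0 < (k b).im) (hu : IsUnit (D.B c (k b) W)) :
    DifferentiableAt ℂ (fun b => Fd D.c0 (D.B c (k b) W)) b := by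
  have h1 := Pool.Agent.Helper78.CE.T_diff _ (pot_add (D.pVc c) hW) (k b) hkb
  have h2 : DifferentiableAt ℂ (fun b => D.B c (k b) W) b := by
    unfold Dat.B
    exact gen_diff_B (fun k => T k (fun x => Vc D.f c x + W x)) 1 _ k b hk h1
  have h3 := inv_diff _ b h2 hu
  have h4 : ∀ (ν : S →L[ℂ] ℂ) (ψ : S),
      DifferentiableAt ℂ (fun b => ν (Ring.inverse (D.B c (k b) W) ψ)) b := by
    intro ν ψ
    exact ν.differentiableAt.comp b (h3.clm_apply (differentiableAt_const ψ))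
  unfold Fd
  have a1 := h4 nuP psiP
  have a2 := h4 nuM psiM
  have a3 := h4 nuP psiM
  have a4 := h4 nuM psiP
  exact (((differentiableAt_const _).sub ((differentiableAt_const _).mul a1)).mul
    ((differentiableAt_const _).sub ((differentiableAt_const _).mul a2))).sub
    (((differentiableAt_const _).mul a3).mul ((differentiableAt_const _).mul a4))

end Pool.Agent.Helper17.CE
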