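import Pool.Agent.Helper17.CE.FN1

set_option autoImplicit false

namespace Pool.Agent.Helper17.CE
open MeasureTheory Pool.Agent.Helper16.CE
open scoped ENNReal

theorem fn_q {x a : ℝ} (hx : 1 ≤ x) (ha : a ≤ x) (j : ℕ) (hj : j ≤ 59) :
    a * x ^ j / x ^ 60 ≤ 1 := by
  have hx0 : 0 < x := by linarith
  rw [div_le_one (by positivity)]
  calc a * x ^ j ≤ x * x ^ j := by gcongr
    _ = x ^ (j + 1) := by ring
    _ ≤ x ^ 60 := pow_le_pow_right₀ hx (by omega)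

/-- the estimates of the small quantities -/
theorem fn_small (x Λ kn C2 Cw : ℝ) (hx : 1 ≤ x) (hΛ : 1 ≤ Λ) (hkn0 : 0 ≤ kn)
    (hkn : kn ≤ 2 * x / Λ) (hC2 : 0 < C2) (hCw : 0 < Cw) :
    (kn / (Λ / x) + 1 / (Λ / x) ^ 2) ^ 2 ≤ 9 * x ^ 4 / Λ ^ 4 ∧
    (6 * C2 * x ^ 9) * (Λ ^ 2 * (Cw * x ^ 4 / Λ ^ 3) + (Cw * x ^ 7) / Λ) ≤
      12 * C2 * Cw * x ^ 16 / Λ ∧
    (kn / (Λ / x) + 1 / (Λ / x) ^ 2) ^ 2 * ((6 * C2 * x ^ 9) * (Cw * x ^ 7)) ≤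
      54 * C2 * Cw * x ^ 20 / Λ := by
  have hx0 : 0 < x := by linarith
  have hΛ0 : 0 < Λ := by linarith
  have h1 : kn / (Λ / x) + 1 / (Λ / x) ^ 2 ≤ 3 * x ^ 2 / Λ ^ 2 := by
    have : kn / (Λ / x) ≤ (2 * x / Λ) / (Λ / x) := by gcongr
    have e1 : (2 * x / Λ) / (Λ / x) = 2 * x ^ 2 / Λ ^ 2 := by field_simp
    have e2 : 1 / (Λ / x) ^ 2 = x ^ 2 / Λ ^ 2 := by field_simp
    rw [e1] at this
    rw [e2]
    have e3 : 3 * x ^ 2 / Λ ^ 2 = 2 * x ^ 2 / Λ ^ 2 + x ^ 2 / Λ ^ 2 := by ring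
    linarith
  have h0 : 0 ≤ kn / (Λ / x) + 1 / (Λ / x) ^ 2 := by positivity
  have h2 : (kn / (Λ / x) + 1 / (Λ / x) ^ 2) ^ 2 ≤ 9 * x ^ 4 / Λ ^ 4 := by
    calc (kn / (Λ / x) + 1 / (Λ / x) ^ 2) ^ 2 ≤ (3 * x ^ 2 / Λ ^ 2) ^ 2 := by gcongr
      _ = _ := by field_simp; ring
  refine ⟨h2, ?_, ?_⟩
  · have e : (6 * C2 * x ^ 9) * (Λ ^ 2 * (Cw * x ^ 4 / Λ ^ 3) + (Cw * x ^ 7) / Λ) =
        6 * C2 * Cw * (x ^ 13 + x ^ 16) / Λ := by field_simp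
    rw [e]
    have h3 : x ^ 13 ≤ x ^ 16 := pow_le_pow_right₀ hx (by norm_num)
    have e2 : 12 * C2 * Cw * x ^ 16 / Λ = 6 * C2 * Cw * (x ^ 16 + x ^ 16) / Λ := by ring
    rw [e2]
    gcongr
  · calc (kn / (Λ / x) + 1 / (Λ / x) ^ 2) ^ 2 * ((6 * C2 * x ^ 9) * (Cw * x ^ 7))
        ≤ (9 * x ^ 4 / Λ ^ 4) * ((6 * C2 * x ^ 9) * (Cw * x ^ 7)) := by gcongr
      _ = 54 * C2 * Cw * x ^ 20 / Λ ^ 4 := by field_simp; ring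
      _ ≤ 54 * C2 * Cw * x ^ 20 / Λ := by
          gcongr
          calc Λ = Λ ^ 1 := (pow_one _).symm
            _ ≤ Λ ^ 4 := pow_le_pow_right₀ hΛ (by norm_num)

/-- the Lipschitz constant of the error -/
theorem fn_lip (x Λ kn C2 Cw Cm la : ℝ) (hx : 1 ≤ x) (hΛ : 1 ≤ Λ) (hkn0 : 0 ≤ kn)
    (hkn : kn ≤ 2 * x / Λ) (hC2 : 0 < C2) (hCw : 0 < Cw) (hCm : 0 < Cm) (hla : 0 ≤ la) :
    Cm * la * (kn / (Λ / x) + 1 / (Λ / x) ^ 2) ^ 2 * (Cw * x ^ 7) *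
      (kn + 1 / (Λ / x) +
        (6 * C2 * x ^ 9) * (Λ ^ 2 * (Cw * x ^ 4 / Λ ^ 3) + (Cw * x ^ 7) / Λ) +
        (kn / (Λ / x) + 1 / (Λ / x) ^ 2) ^ 2 * ((6 * C2 * x ^ 9) * (Cw * x ^ 7))) ≤
      (9 * Cm * Cw * (3 + 66 * C2 * Cw)) * x ^ 31 / Λ ^ 5 * la := by
  have hx0 : 0 < x := by linarith
  have hΛ0 : 0 < Λ := by linarith
  obtain ⟨h1, h2, h3⟩ := fn_small x Λ kn C2 Cw hx hΛ hkn0 hkn hC2 hCw
  have h4 : kn + 1 / (Λ / x) +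
        (6 * C2 * x ^ 9) * (Λ ^ 2 * (Cw * x ^ 4 / Λ ^ 3) + (Cw * x ^ 7) / Λ) +
        (kn / (Λ / x) + 1 / (Λ / x) ^ 2) ^ 2 * ((6 * C2 * x ^ 9) * (Cw * x ^ 7)) ≤
      (3 + 66 * C2 * Cw) * x ^ 20 / Λ := by
    have a1 : kn ≤ 2 * x ^ 20 / Λ := by
      refine hkn.trans ?_
      gcongr
      calc x = x ^ 1 := (pow_one _).symm
        _ ≤ x ^ 20 := pow_le_pow_right₀ hx (by norm_num)
    have a2 : 1 / (Λ / x) ≤ x ^ 20 / Λ := by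
      rw [one_div_div]
      gcongr
      calc x = x ^ 1 := (pow_one _).symm
        _ ≤ x ^ 20 := pow_le_pow_right₀ hx (by norm_num)
    have a3 : 12 * C2 * Cw * x ^ 16 / Λ ≤ 12 * C2 * Cw * x ^ 20 / Λ := by
      gcongr
      norm_num
    have e : (3 + 66 * C2 * Cw) * x ^ 20 / Λ = 2 * x ^ 20 / Λ + x ^ 20 / Λ +
        12 * C2 * Cw * x ^ 20 / Λ + 54 * C2 * Cw * x ^ 20 / Λ := by ring
    rw [e]
    linarith
  calc _ ≤ Cm * la * (9 * x ^ 4 / Λ ^ 4) * (Cw * x ^ 7) * ((3 + 66 * C2 * Cw) * x ^ 20 / Λ) := by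
        gcongr
    _ = _ := by field_simp

theorem fn_main_num (x k0 s0 C2 Cw C3 G : ℝ) (hk0 : 0 < k0) (hs0 : 0 < s0) (hC2 : 0 < C2)
    (hCw : 0 < Cw) (hC3 : 0 < C3)
    (hG : G = 2 + 2 / k0 + 12 * C2 * Cw / s0 + 54 * C2 * Cw + 6 * C3) (hx : G ≤ x) :
    1 ≤ x ∧ 2 * x / x ^ 60 ≤ k0 ∧ 2 ≤ x ^ 60 / x ∧ 12 * C2 * Cw * x ^ 16 / x ^ 60 ≤ s0 ∧
    54 * C2 * Cw * x ^ 20 / x ^ 60 ≤ 1 ∧ C3 * x ^ 36 / x ^ 60 ≤ 1 / 6 ∧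
    6 * C2 * Cw * x ^ 13 / (x ^ 60) ^ 3 ≤ 1 ∧
    Real.sqrt (6 * C2 * Cw * x ^ 13 / (x ^ 60) ^ 3) * (6 * C2 * Cw * x ^ 16) ≤ 1 := by
  have p1 : 0 < 2 / k0 := by positivity
  have p2 : 0 < 12 * C2 * Cw / s0 := by positivity
  have p3 : 0 < 54 * C2 * Cw := by positivity
  have hx1 : 1 ≤ x := by linarith
  have hx0 : 0 < x := by linarith
  refine ⟨hx1, ?_, ?_, ?_, ?_, ?_, ?_, ?_⟩
  · have := fn_q (a := 2 / k0) hx1 (by linarith) 1 (by norm_num)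
    calc 2 * x / x ^ 60 = k0 * (2 / k0 * x ^ 1 / x ^ 60) := by field_simp
      _ ≤ k0 * 1 := by gcongr
      _ = k0 := mul_one _
  · have := fn_q (a := 2) hx1 (by linarith) 1 (by norm_num)
    rw [div_le_one (by positivity), pow_one] at this
    rw [le_div_iff₀ hx0]; exact this
  · have := fn_q (a := 12 * C2 * Cw / s0) hx1 (by linarith) 16 (by norm_num)
    calc 12 * C2 * Cw * x ^ 16 / x ^ 60 = s0 * (12 * C2 * Cw / s0 * x ^ 16 / x ^ 60) := by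
          field_simp
      _ ≤ s0 * 1 := by gcongr
      _ = s0 := mul_one _
  · exact fn_q (a := 54 * C2 * Cw) hx1 (by linarith) 20 (by norm_num)
  · have := fn_q (a := 6 * C3) hx1 (by linarith) 36 (by norm_num)
    have e : 6 * C3 * x ^ 36 / x ^ 60 = 6 * (C3 * x ^ 36 / x ^ 60) := by ring
    linarith
  · have h6 : 6 * C2 * Cw ≤ x := by nlinarith
    rw [div_le_one (by positivity)]
    calc 6 * C2 * Cw * x ^ 13 ≤ x * x ^ 13 := by gcongr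
      _ = x ^ 14 := by ring
      _ ≤ x ^ 180 := pow_le_pow_right₀ hx1 (by norm_num)
      _ = (x ^ 60) ^ 3 := by ring
  · have h6 : 6 * C2 * Cw ≤ x := by nlinarith
    have h7 : 6 * C2 * Cw * x ^ 13 / (x ^ 60) ^ 3 ≤ (1 / x ^ 17) ^ 2 := by
      rw [div_le_iff₀ (by positivity)]
      calc 6 * C2 * Cw * x ^ 13 ≤ x * x ^ 13 := by gcongr
        _ = x ^ 14 := by ring
        _ ≤ x ^ 146 := pow_le_pow_right₀ hx1 (by norm_num)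
        _ = (1 / x ^ 17) ^ 2 * (x ^ 60) ^ 3 := by field_simp
    have h8 : Real.sqrt (6 * C2 * Cw * x ^ 13 / (x ^ 60) ^ 3) ≤ 1 / x ^ 17 := by
      rw [Real.sqrt_le_left (by positivity)]; exact h7
    calc _ ≤ (1 / x ^ 17) * (x * x ^ 16) := by gcongr
      _ = 1 := by field_simp

end Pool.Agent.Helper17.CE
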