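import Pool.Agent.Helper16.CE.Top

set_option autoImplicit false

namespace Pool.Agent.Helper17.CE
open MeasureTheory Pool.Agent.Helper16.CE
open scoped ENNReal

noncomputable def g0 (r : ℝ) : ℝ := 1 / (4 * Real.pi * r)

theorem gk_zero (r : ℝ) : gk 0 r = ((g0 r : ℝ) : ℂ) := by simp [gk, g0]

theorem rf_rf (j : Fin 3) (x : E3) : rf j (rf j x) = x := by
  ext i; rw [rf_apply, rf_apply]; by_cases h : i = j <;> simp [h]

theorem rf_norm_sub (j : Fin 3) (x y : E3) : ‖x - rf j y‖ = ‖rf j x - y‖ := by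
  rw [← LinearIsometryEquiv.norm_map (rf j) (x - rf j y), map_sub, rf_rf]

theorem rf_self (j : Fin 3) (x : E3) : rf j x j = - x j := by rw [rf_apply, if_pos rfl]

theorem sq_diff (j : Fin 3) (x y : E3) :
    ‖rf j x - y‖ ^ 2 - ‖x - y‖ ^ 2 = 4 * (x j) * (y j) := by
  rw [EuclideanSpace.norm_sq_eq, EuclideanSpace.norm_sq_eq]
  fin_cases j <;> simp [Fin.sum_univ_three, rf_apply] <;> ring

theorem coord_le (j : Fin 3) (x : E3) : |x j| ≤ ‖x‖ := PiLp.norm_apply_le x j

/-- difference of the kernel and its reflection -/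
noncomputable def DD (j : Fin 3) (x y : E3) : ℝ := g0 ‖x - y‖ - g0 ‖rf j x - y‖

theorem DD_eq (j : Fin 3) (x y : E3) (h1 : x ≠ y) (h2 : rf j x ≠ y) :
    DD j x y = x j * y j / (Real.pi * ‖x - y‖ * ‖rf j x - y‖ * (‖x - y‖ + ‖rf j x - y‖)) := by
  have ha : 0 < ‖x - y‖ := norm_pos_iff.2 (sub_ne_zero.2 h1)
  have hb : 0 < ‖rf j x - y‖ := norm_pos_iff.2 (sub_ne_zero.2 h2)
  have h := sq_diff j x y
  unfold DD g0
  generalize ‖x - y‖ = a at ha h ⊢
  generalize ‖rf j x - y‖ = b at hb h ⊢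
  have hp := Real.pi_pos
  have hab : 0 < a + b := by linarith
  rw [div_sub_div _ _ (by positivity) (by positivity), div_eq_div_iff (by positivity) (by positivity)]
  linear_combination (Real.pi ^ 2 * a * b * 4) * h

theorem DD_lower (j : Fin 3) (x y : E3) (h1 : x ≠ y) (h2 : rf j x ≠ y) (hx : ‖x‖ < 1)
    (hy : ‖y‖ < 1) : (x j * y j) ^ 2 / (16 * Real.pi) ≤ x j * y j * DD j x y := by
  rw [DD_eq j x y h1 h2]
  have ha : 0 < ‖x - y‖ := norm_pos_iff.2 (sub_ne_zero.2 h1)
  have hb : 0 < ‖rf j x - y‖ := norm_pos_iff.2 (sub_ne_zero.2 h2)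
  have ha2 : ‖x - y‖ ≤ 2 := (norm_sub_le _ _).trans (by linarith)
  have hb2 : ‖rf j x - y‖ ≤ 2 :=
    (norm_sub_le _ _).trans (by rw [LinearIsometryEquiv.norm_map]; linarith)
  generalize ‖x - y‖ = a at ha ha2 ⊢
  generalize ‖rf j x - y‖ = b at hb hb2 ⊢
  have hp := Real.pi_pos
  have hab : a * b * (a + b) ≤ 16 := by
    have : a * b ≤ 2 * 2 := mul_le_mul ha2 hb2 hb.le (by norm_num)
    have : a * b * (a + b) ≤ (2 * 2) * (2 + 2) :=
      mul_le_mul this (by linarith) (by linarith) (by norm_num)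
    linarith
  have e : x j * y j * (x j * y j / (Real.pi * a * b * (a + b))) =
      (x j * y j) ^ 2 / (Real.pi * (a * b * (a + b))) := by
    rw [mul_div_assoc']; congr 1 <;> ring
  rw [e]
  apply div_le_div_of_nonneg_left (sq_nonneg _) (by positivity)
  nlinarith

theorem DD_upper (j : Fin 3) (x y : E3) (h1 : x ≠ y) (h2 : rf j x ≠ y) :
    |DD j x y| ≤ |x j| * (1 / ‖x - y‖ ^ 2 + 1 / ‖rf j x - y‖ ^ 2) := by
  rw [DD_eq j x y h1 h2]
  have ha : 0 < ‖x - y‖ := norm_pos_iff.2 (sub_ne_zero.2 h1)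
  have hb : 0 < ‖rf j x - y‖ := norm_pos_iff.2 (sub_ne_zero.2 h2)
  have ca : |x j - y j| ≤ ‖x - y‖ := coord_le j (x - y)
  have cb : |x j + y j| ≤ ‖rf j x - y‖ := by
    have := coord_le j (rf j x - y)
    rw [PiLp.sub_apply, rf_self] at this
    have e : -x j - y j = -(x j + y j) := by ring
    rwa [e, abs_neg] at this
  have hy : 2 * |y j| ≤ ‖x - y‖ + ‖rf j x - y‖ := by
    have : 2 * |y j| = |(x j + y j) - (x j - y j)| := by
      rw [show (x j + y j) - (x j - y j) = 2 * y j by ring, abs_mul, abs_two]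
    rw [this]
    exact (abs_sub _ _).trans (by linarith)
  generalize ‖x - y‖ = a at ha hy ⊢
  generalize ‖rf j x - y‖ = b at hb hy ⊢
  have hp : 3 < Real.pi := Real.pi_gt_three
  have hab : 0 < a + b := by linarith
  have hD : 0 < Real.pi * a * b * (a + b) := by positivity
  rw [abs_div, abs_mul, abs_of_pos hD, mul_div_assoc]
  apply mul_le_mul_of_nonneg_left _ (abs_nonneg _)
  have h3 : |y j| / (Real.pi * a * b * (a + b)) ≤ 1 / (a * b) := by
    rw [div_le_div_iff₀ hD (by positivity)]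
    have : 0 < a * b := by positivity
    nlinarith [mul_pos this hab]
  refine h3.trans ?_
  have h4 : 1 / a ^ 2 + 1 / b ^ 2 - 1 / (a * b) = (a ^ 2 + b ^ 2 - a * b) / (a ^ 2 * b ^ 2) := by
    field_simp; ring
  have h5 : 0 ≤ (a ^ 2 + b ^ 2 - a * b) / (a ^ 2 * b ^ 2) := by
    apply div_nonneg _ (by positivity)
    nlinarith [sq_nonneg (a - b), mul_pos ha hb]
  linarith

/-! ### reflections in the class `S` -/

/-- odd in the `j`-th coordinate -/
def OddJ (j : Fin 3) (w : S) : Prop := ∀ x, ev w (rf j x) = - ev w x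

theorem rf012 (x : E3) : rf 2 (rf 0 (rf 1 x)) = - x := by
  ext i; rw [rf_apply, rf_apply, rf_apply]; fin_cases i <;> simp

theorem ev_01 (w : S) (x : E3) : ev w (rf 0 (rf 1 x)) = - ev w x := by
  rw [← (cls_ev w).refl, rf012, (cls_ev w).neg]

theorem rf_comm01 (x : E3) : rf 1 (rf 0 x) = rf 0 (rf 1 x) := by
  ext i; simp only [rf_apply]; fin_cases i <;> simp

theorem even_of_odd (j j' : Fin 3) (hj : j = 0 ∧ j' = 1 ∨ j = 1 ∧ j' = 0) (w : S) (h : OddJ j w)
    (x : E3) : ev w (rf j' x) = ev w x := by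
  rcases hj with ⟨rfl, rfl⟩ | ⟨rfl, rfl⟩
  · have h1 := h (rf 1 x)
    rw [ev_01] at h1
    exact (neg_injective h1).symm
  · have h1 := h (rf 0 x)
    rw [rf_comm01, ev_01] at h1
    exact (neg_injective h1).symm

theorem src_rf (j : Fin 3) (y : E3) : src j (rf j y) = - src j y := by
  unfold src
  have h : (rf j y ∈ Metric.ball (0 : E3) 1) ↔ (y ∈ Metric.ball (0 : E3) 1) := by
    simp [mem_ball_zero_iff]
  by_cases hy : y ∈ Metric.ball (0 : E3) 1
  · rw [Set.indicator_of_mem hy, Set.indicator_of_mem (h.2 hy), rf_self]; simp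
  · rw [Set.indicator_of_notMem hy, Set.indicator_of_notMem (fun hh => hy (h.1 hh))]; simp

theorem mom_src (j : Fin 3) (w : S) : mom j w = ∫ y, src j y * ev w y := by
  rw [mom_spec]
  have h := setInt_src j (fun y => ev w y)
  rw [← integral_indicator measurableSet_ball]
  refine integral_congr_ae (Filter.Eventually.of_forall fun y => ?_)
  unfold src
  by_cases hy : y ∈ Metric.ball (0 : E3) 1
  · simp only [Set.indicator_of_mem hy]
  · simp only [Set.indicator_of_notMem hy, zero_mul]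

theorem mom_even (j : Fin 3) (w : S) (h : ∀ x, ev w (rf j x) = ev w x) : mom j w = 0 := by
  have h1 : mom j w = - mom j w := by
    conv_lhs => rw [mom_src, ← integral_iso (rf j)]
    rw [mom_src, ← integral_neg]
    refine integral_congr_ae (Filter.Eventually.of_forall fun y => ?_)
    simp only
    rw [src_rf, h]; ring
  exact self_eq_neg.1 h1

theorem psi_odd (j : Fin 3) (hj : j ≠ 2) : OddJ j (psi j) := by
  intro x
  rw [psi_spec j hj, psi_spec j hj, setInt_src, setInt_src, ← integral_iso (rf j), ← integral_neg]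
  refine integral_congr_ae (Filter.Eventually.of_forall fun y => ?_)
  simp only
  rw [src_rf, ← map_sub, LinearIsometryEquiv.norm_map]; ring

end Pool.Agent.Helper17.CE
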