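import Pool.Agent.Helper17.CE.In1

set_option autoImplicit false

namespace Pool.Agent.Helper17.CE
open MeasureTheory Pool.Agent.Helper16.CE
open scoped ENNReal

theorem im_zero : (0 : ℝ) ≤ (0 : ℂ).im := by simp

section
variable (f : E3 → ℝ) (f1 f2 : ℝ) (hf : Measurable f) (hf1 : 0 < f1)
    (hf12 : ∀ x, f1 ≤ f x ∧ f x ≤ f2) (hfi : ∀ (L : E3 ≃ₗᵢ[ℝ] E3) x, f (L x) = f x)

include hf in
theorem vv_meas : Measurable (vv f) := by
  unfold vv
  refine Measurable.ite (measurableSet_lt measurable_norm measurable_const) ?_ measurable_const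
  exact Complex.measurable_ofReal.comp (measurable_const.div hf)

include hf1 hf12 in
theorem vv_le (x : E3) : ‖vv f x‖ ≤ (Metric.ball (0 : E3) 1).indicator (fun _ => 1 / f1) x := by
  unfold vv
  by_cases hx : ‖x‖ < 1
  · rw [if_pos hx, Set.indicator_of_mem (by simpa using hx), Complex.norm_real, Real.norm_eq_abs,
      abs_div, abs_neg, abs_one, abs_of_pos (hf1.trans_le (hf12 x).1)]
    exact one_div_le_one_div_of_le hf1 (hf12 x).1
  · rw [if_neg hx, Set.indicator_of_notMem (by simpa using hx), norm_zero]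

theorem ind_int (c : ℝ) : Integrable ((Metric.ball (0 : E3) 1).indicator (fun _ => c)) volume := by
  rw [integrable_indicator_iff measurableSet_ball]
  exact integrableOn_const (measure_ball_lt_top).ne

include hf hf1 hf12 hfi in
theorem vv_pot : Pot (vv f) where
  meas := vv_meas f hf
  bdd := ⟨1 / f1, fun x => (vv_le f f1 f2 hf1 hf12 x).trans (by
    by_cases hx : x ∈ Metric.ball (0 : E3) 1
    · rw [Set.indicator_of_mem hx]
    · rw [Set.indicator_of_notMem hx]; positivity)⟩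
  int := (ind_int (1 / f1)).mono' (vv_meas f hf).aestronglyMeasurable
    (Filter.Eventually.of_forall (vv_le f f1 f2 hf1 hf12))
  neg := fun x => by
    have h := hfi (LinearIsometryEquiv.neg ℝ) x
    have e : (LinearIsometryEquiv.neg ℝ : E3 ≃ₗᵢ[ℝ] E3) x = -x := rfl
    rw [e] at h
    simp only [vv, norm_neg, h]
  refl := fun x => by simp only [vv, LinearIsometryEquiv.norm_map, hfi]

include hfi in
theorem vv_rf (j : Fin 3) (x : E3) : vv f (rf j x) = vv f x := by
  simp only [vv, LinearIsometryEquiv.norm_map, hfi]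

theorem vv_out (x : E3) (hx : ¬ ‖x‖ < 1) : vv f x = 0 := by simp only [vv, if_neg hx]

include hf hf1 hf12 hfi in
theorem T_odd (j : Fin 3) (w : S) (h : OddJ j w) : OddJ j (T 0 (vv f) w) := by
  intro x
  have hV := vv_pot f f1 f2 hf hf1 hf12 hfi
  rw [T_spec 0 im_zero _ hV, T_spec 0 im_zero _ hV, ← integral_iso (rf j), ← integral_neg]
  refine integral_congr_ae (Filter.Eventually.of_forall fun y => ?_)
  simp only
  rw [vv_rf f hfi, h, ← map_sub, LinearIsometryEquiv.norm_map]; ring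

variable (hpsi : ∀ (j : Fin 3) (x : E3), ‖x‖ < 1 →
      ∫ y in Metric.ball (0 : E3) 1, gk 0 ‖x - y‖ * (y j : ℂ) = (f x : ℂ) * (x j : ℂ))

include hpsi in
theorem psi_in (j : Fin 3) (hj : j ≠ 2) (x : E3) (hx : ‖x‖ < 1) :
    ev (psi j) x = ((f x * x j : ℝ) : ℂ) := by
  rw [psi_spec j hj, hpsi j x hx]; push_cast; ring

include hf1 hf12 hpsi in
theorem vv_psi (j : Fin 3) (hj : j ≠ 2) (y : E3) : vv f y * ev (psi j) y = - src j y := by
  by_cases hy : ‖y‖ < 1
  · rw [psi_in f hpsi j hj y hy]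
    have hfy : 0 < f y := hf1.trans_le (hf12 y).1
    unfold vv src
    rw [if_pos hy, Set.indicator_of_mem (by simpa using hy), ← Complex.ofReal_mul,
      ← Complex.ofReal_neg]
    congr 1
    field_simp
  · rw [vv_out f y hy, src, Set.indicator_of_notMem (by simpa using hy)]; simp

include hf hf1 hf12 hfi hpsi in
theorem T_psi (j : Fin 3) (hj : j ≠ 2) : T 0 (vv f) (psi j) = - psi j := by
  have hV := vv_pot f f1 f2 hf hf1 hf12 hfi
  apply ev_ext
  intro x
  rw [T_spec 0 im_zero _ hV, ev_neg, psi_spec j hj, setInt_src, ← integral_neg]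
  refine integral_congr_ae (Filter.Eventually.of_forall fun y => ?_)
  simp only
  rw [vv_psi f f1 f2 hf1 hf12 hpsi j hj]; ring

include hf hf1 hf12 hfi in
/-- the representation of `T` on functions odd in `x_j` -/
theorem T_rep (j : Fin 3) (w : S) (h : OddJ j w) (x : E3) :
    Integrable (fun y => ((DD j x y / 2 : ℝ) : ℂ) * (vv f y * ev w y)) volume ∧
    ev (T 0 (vv f) w) x = ∫ y, ((DD j x y / 2 : ℝ) : ℂ) * (vv f y * ev w y) := by
  have hV := vv_pot f f1 f2 hf hf1 hf12 hfi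
  obtain ⟨M, hM⟩ := hV.bdd
  have hM0 : 0 ≤ M := (norm_nonneg _).trans (hM 0)
  have key := fun x => (ker_int 0 im_zero (fun y => vv f y * ev w y) (hV.mul_ev w).1 (‖w‖ * M)
      (fun y => ((hV.mul_ev w).2.2 y).trans (by gcongr; exact hM y)) (hV.mul_ev w).2.1 x).1
  have e : (fun y => ((DD j x y / 2 : ℝ) : ℂ) * (vv f y * ev w y)) = fun y =>
      (1 / 2 : ℂ) * (gk 0 ‖x - y‖ * (vv f y * ev w y) - gk 0 ‖rf j x - y‖ * (vv f y * ev w y)) := by
    funext y
    unfold DD
    rw [gk_zero, gk_zero]; push_cast; ring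
  rw [e]
  refine ⟨((key x).sub (key (rf j x))).const_mul _, ?_⟩
  rw [integral_const_mul, integral_sub (key x) (key (rf j x)), ← T_spec 0 im_zero _ hV,
    ← T_spec 0 im_zero _ hV, T_odd f f1 f2 hf hf1 hf12 hfi j w h]
  ring

/-- the kernel of `S_` on functions odd in `x_j` -/
noncomputable def kap (c0 : ℝ) (j : Fin 3) (x y : E3) : ℝ :=
  if ‖y‖ < 1 then DD j x y / 2 * (1 / f y) - c0 * (f x * x j) * y j else 0

/-- the operator `S_` -/
noncomputable def SS (c0 : ℝ) : S →L[ℂ] S := -(T 0 (vv f) + (c0 : ℂ) • P)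

theorem SS_ev (c0 : ℝ) (j j' : Fin 3) (hj : j = 0 ∧ j' = 1 ∨ j = 1 ∧ j' = 0) (w : S)
    (h : OddJ j w) : SS f c0 w = -(T 0 (vv f) w + ((c0 : ℂ) * mom j w) • psi j) := by
  have h2 := mom_even j' w (even_of_odd j j' hj w h)
  have e : SS f c0 w = -(T 0 (vv f) w + (c0 : ℂ) • (mom 0 w • psi 0 + mom 1 w • psi 1)) := rfl
  rw [e]
  rcases hj with ⟨rfl, rfl⟩ | ⟨rfl, rfl⟩
  · rw [h2, zero_smul, add_zero, smul_smul]
  · rw [h2, zero_smul, zero_add, smul_smul]

include hf hf1 hf12 hfi in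
theorem SS_odd (c0 : ℝ) (j j' : Fin 3) (hj : j = 0 ∧ j' = 1 ∨ j = 1 ∧ j' = 0) (w : S)
    (h : OddJ j w) : OddJ j (SS f c0 w) := by
  have hj2 : j ≠ 2 := by rcases hj with ⟨rfl, rfl⟩ | ⟨rfl, rfl⟩ <;> decide
  intro x
  rw [SS_ev f c0 j j' hj w h, ev_neg, ev_neg, ev_add, ev_add, ev_smul, ev_smul,
    psi_odd j hj2, T_odd f f1 f2 hf hf1 hf12 hfi j w h]
  ring

include hf hf1 hf12 hfi hpsi in
theorem SS_rep (c0 : ℝ) (j j' : Fin 3) (hj : j = 0 ∧ j' = 1 ∨ j = 1 ∧ j' = 0) (w : S)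
    (h : OddJ j w) (x : E3) (hx : ‖x‖ < 1) :
    Integrable (fun y => ((kap f c0 j x y : ℝ) : ℂ) * ev w y) volume ∧
    ev (SS f c0 w) x = ∫ y, ((kap f c0 j x y : ℝ) : ℂ) * ev w y := by
  have hj2 : j ≠ 2 := by rcases hj with ⟨rfl, rfl⟩ | ⟨rfl, rfl⟩ <;> decide
  have hr := T_rep f f1 f2 hf hf1 hf12 hfi j w h x
  have hs : Integrable (fun y => src j y * ev w y) volume := by
    have h1 := (src_int j).norm.const_mul ‖w‖
    refine h1.mono' ((src_meas j).mul (meas_ev w)).aestronglyMeasurable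
      (Filter.Eventually.of_forall fun y => ?_)
    rw [norm_mul, mul_comm]
    gcongr
    exact ev_le w y
  have e : (fun y => ((kap f c0 j x y : ℝ) : ℂ) * ev w y) = fun y =>
      -(((DD j x y / 2 : ℝ) : ℂ) * (vv f y * ev w y) +
        ((c0 * (f x * x j) : ℝ) : ℂ) * (src j y * ev w y)) := by
    funext y
    unfold kap
    by_cases hy : ‖y‖ < 1
    · rw [if_pos hy, src, Set.indicator_of_mem (by simpa using hy), vv, if_pos hy]
      push_cast
      ring
    · rw [if_neg hy, src, Set.indicator_of_notMem (by simpa using hy), vv_out f y hy]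
      simp
  rw [e]
  refine ⟨(hr.1.add (hs.const_mul _)).neg, ?_⟩
  rw [integral_neg, integral_add hr.1 (hs.const_mul _), ← hr.2, integral_const_mul,
    SS_ev f c0 j j' hj w h, ev_neg, ev_add, ev_smul, psi_in f hpsi j hj2 x hx, mom_src]
  push_cast
  ring

end

end Pool.Agent.Helper17.CE
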