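import Pool.Agent.Helper17.CE.In2

set_option autoImplicit false

namespace Pool.Agent.Helper17.CE
open MeasureTheory Pool.Agent.Helper16.CE
open scoped ENNReal

theorem ae_ne_pt (p : E3) : ∀ᵐ y ∂(volume : Measure E3), p ≠ y := by
  have h : ({p} : Set E3)ᶜ ∈ ae (volume : Measure E3) := by
    rw [mem_ae_iff, compl_compl]; exact measure_singleton p
  filter_upwards [h] with y hy
  exact fun h => hy (by rw [h]; rfl)

section
variable (f : E3 → ℝ) (f1 f2 : ℝ) (hf : Measurable f) (hf1 : 0 < f1)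
    (hf12 : ∀ x, f1 ≤ f x ∧ f x ≤ f2) (hfi : ∀ (L : E3 ≃ₗᵢ[ℝ] E3) x, f (L x) = f x)
    (hpsi : ∀ (j : Fin 3) (x : E3), ‖x‖ < 1 →
      ∫ y in Metric.ball (0 : E3) 1, gk 0 ‖x - y‖ * (y j : ℂ) = (f x : ℂ) * (x j : ℂ))

include hf1 hf12 in
/-- the sign of the kernel -/
theorem kap_sign (c0 : ℝ) (hc1 : c0 * (32 * Real.pi * f2 ^ 2) ≤ 1) (j : Fin 3)
    (x y : E3) (hx : ‖x‖ < 1) (hy : ‖y‖ < 1) (h1 : x ≠ y) (h2 : rf j x ≠ y) :
    0 ≤ x j * y j * kap f c0 j x y := by
  have hp := Real.pi_pos
  have hfx : 0 < f x := hf1.trans_le (hf12 x).1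
  have hfy : 0 < f y := hf1.trans_le (hf12 y).1
  have hf2 : 0 < f2 := hfx.trans_le (hf12 x).2
  unfold kap
  rw [if_pos hy]
  have hD := DD_lower j x y h1 h2 hx hy
  have e : x j * y j * (DD j x y / 2 * (1 / f y) - c0 * (f x * x j) * y j) =
      (x j * y j * DD j x y) / (2 * f y) - c0 * f x * (x j * y j) ^ 2 := by
    field_simp
  rw [e]
  have h3 : (x j * y j) ^ 2 / (16 * Real.pi) / (2 * f y) ≤ (x j * y j * DD j x y) / (2 * f y) :=
    div_le_div_of_nonneg_right hD (by positivity)
  have h4 : c0 * f x ≤ 1 / (32 * Real.pi * f y) := by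
    rw [le_div_iff₀ (by positivity)]
    by_cases hc : 0 ≤ c0
    · calc c0 * f x * (32 * Real.pi * f y) = c0 * (32 * Real.pi * (f x * f y)) := by ring
        _ ≤ c0 * (32 * Real.pi * (f2 * f2)) := by
            apply mul_le_mul_of_nonneg_left _ hc
            apply mul_le_mul_of_nonneg_left _ (by positivity)
            exact mul_le_mul (hf12 x).2 (hf12 y).2 hfy.le hf2.le
        _ = c0 * (32 * Real.pi * f2 ^ 2) := by ring
        _ ≤ 1 := hc1
    · push Not at hc
      have : c0 * f x * (32 * Real.pi * f y) ≤ 0 := by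
        have h5 : 0 < f x * (32 * Real.pi * f y) := by positivity
        have h6 := mul_neg_of_neg_of_pos hc h5
        linarith
      linarith
  have h5 : c0 * f x * (x j * y j) ^ 2 ≤ 1 / (32 * Real.pi * f y) * (x j * y j) ^ 2 :=
    mul_le_mul_of_nonneg_right h4 (sq_nonneg _)
  have h6 : 1 / (32 * Real.pi * f y) * (x j * y j) ^ 2 =
      (x j * y j) ^ 2 / (16 * Real.pi) / (2 * f y) := by
    field_simp; ring
  linarith

include hf hf1 hf12 hfi hpsi in
theorem SS_psi (c0 : ℝ) (j j' : Fin 3) (hj : j = 0 ∧ j' = 1 ∨ j = 1 ∧ j' = 0) (mj : ℝ)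
    (hmj : mom j (psi j) = (mj : ℂ)) :
    SS f c0 (psi j) = ((1 - c0 * mj : ℝ) : ℂ) • psi j := by
  have hj2 : j ≠ 2 := by rcases hj with ⟨rfl, rfl⟩ | ⟨rfl, rfl⟩ <;> decide
  rw [SS_ev f c0 j j' hj (psi j) (psi_odd j hj2), T_psi f f1 f2 hf hf1 hf12 hfi hpsi j hj2, hmj]
  push_cast
  rw [sub_smul, one_smul]
  abel

include hf hf1 hf12 hfi hpsi in
theorem contract (c0 : ℝ) (hc1 : c0 * (32 * Real.pi * f2 ^ 2) ≤ 1) (j j' : Fin 3)
    (hj : j = 0 ∧ j' = 1 ∨ j = 1 ∧ j' = 0) (mj : ℝ) (hmj : mom j (psi j) = (mj : ℂ))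
    (w : S) (h : OddJ j w) (M : ℝ)
    (hw : ∀ y, ‖y‖ < 1 → ‖ev w y‖ ≤ M * |f y * y j|) (x : E3) (hx : ‖x‖ < 1) :
    ‖ev (SS f c0 w) x‖ ≤ M * (1 - c0 * mj) * |f x * x j| := by
  have hj2 : j ≠ 2 := by rcases hj with ⟨rfl, rfl⟩ | ⟨rfl, rfl⟩ <;> decide
  by_cases hxj : x j = 0
  · have h1 := SS_odd f f1 f2 hf hf1 hf12 hfi c0 j j' hj w h x
    have h2 : rf j x = x := by
      ext i
      rw [rf_apply]
      by_cases hi : i = j
      · rw [if_pos hi, hi, hxj, neg_zero]
      · rw [if_neg hi]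
    rw [h2] at h1
    rw [self_eq_neg.1 h1, hxj]
    simp
  have hfx : 0 < f x := hf1.trans_le (hf12 x).1
  have hr := SS_rep f f1 f2 hf hf1 hf12 hfi hpsi c0 j j' hj w h x hx
  have hp := SS_rep f f1 f2 hf hf1 hf12 hfi hpsi c0 j j' hj (psi j) (psi_odd j hj2) x hx
  have e : (fun y => ((kap f c0 j x y : ℝ) : ℂ) * ev (psi j) y) =
      fun y => ((kap f c0 j x y * (f y * y j) : ℝ) : ℂ) := by
    funext y
    by_cases hy : ‖y‖ < 1
    · rw [psi_in f hpsi j hj2 y hy]; push_cast; ring
    · simp [kap, if_neg hy]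
  rw [e] at hp
  have hI : Integrable (fun y => kap f c0 j x y * (f y * y j)) volume := by
    have := hp.1.re
    simpa using this
  have hval : ∫ y, kap f c0 j x y * (f y * y j) = (1 - c0 * mj) * (f x * x j) := by
    have h1 := hp.2
    rw [SS_psi f f1 f2 hf hf1 hf12 hfi hpsi c0 j j' hj mj hmj, ev_smul, psi_in f hpsi j hj2 x hx,
      integral_complex_ofReal] at h1
    exact_mod_cast h1.symm
  have hmain : |x j| * ‖ev (SS f c0 w) x‖ ≤
      ∫ y, M * x j * (kap f c0 j x y * (f y * y j)) := by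
    rw [hr.2]
    calc |x j| * ‖∫ y, ((kap f c0 j x y : ℝ) : ℂ) * ev w y‖ ≤
          |x j| * ∫ y, ‖((kap f c0 j x y : ℝ) : ℂ) * ev w y‖ :=
          mul_le_mul_of_nonneg_left (norm_integral_le_integral_norm _) (abs_nonneg _)
      _ = ∫ y, |x j| * ‖((kap f c0 j x y : ℝ) : ℂ) * ev w y‖ := (integral_const_mul _ _).symm
      _ ≤ ∫ y, M * x j * (kap f c0 j x y * (f y * y j)) := by
          apply integral_mono_ae (hr.1.norm.const_mul _) (hI.const_mul _)
          filter_upwards [ae_ne_pt x, ae_ne_pt (rf j x)] with y h1 h2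
          by_cases hy : ‖y‖ < 1
          · have hs := kap_sign f f1 f2 hf1 hf12 c0 hc1 j x y hx hy h1 h2
            have hfy : 0 < f y := hf1.trans_le (hf12 y).1
            rw [norm_mul, Complex.norm_real, Real.norm_eq_abs]
            calc |x j| * (|kap f c0 j x y| * ‖ev w y‖) ≤
                  |x j| * (|kap f c0 j x y| * (M * |f y * y j|)) :=
                  mul_le_mul_of_nonneg_left (mul_le_mul_of_nonneg_left (hw y hy) (abs_nonneg _))
                    (abs_nonneg _)
              _ = M * f y * |x j * y j * kap f c0 j x y| := by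
                  rw [abs_mul (f y), abs_of_pos hfy, abs_mul, abs_mul]; ring
              _ = M * x j * (kap f c0 j x y * (f y * y j)) := by
                  rw [abs_of_nonneg hs]; ring
          · simp [kap, if_neg hy]
  rw [integral_const_mul, hval] at hmain
  have hxj' : 0 < |x j| := abs_pos.2 hxj
  have e2 : M * x j * ((1 - c0 * mj) * (f x * x j)) =
      |x j| * (M * (1 - c0 * mj) * |f x * x j|) := by
    rw [abs_mul (f x), abs_of_pos hfx]
    have : |x j| * |x j| = x j * x j := abs_mul_abs_self _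
    linear_combination (- M * (1 - c0 * mj) * f x) * this
  rw [e2] at hmain
  exact le_of_mul_le_mul_left hmain hxj'

include hf hf1 hf12 hfi hpsi in
theorem first (c0 : ℝ) (hc0 : 0 < c0) (j j' : Fin 3)
    (hj : j = 0 ∧ j' = 1 ∨ j = 1 ∧ j' = 0) :
    ∃ C : ℝ, 0 ≤ C ∧ ∀ w : S, OddJ j w → ∀ x : E3, ‖x‖ < 1 →
      ‖ev (SS f c0 w) x‖ ≤ C * ‖w‖ * |f x * x j| := by
  have hj2 : j ≠ 2 := by rcases hj with ⟨rfl, rfl⟩ | ⟨rfl, rfl⟩ <;> decide
  have hf2 : 0 < f2 := hf1.trans_le ((hf12 0).1.trans (hf12 0).2)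
  set g : E3 → ℂ := (Metric.ball (0 : E3) 1).indicator (fun _ => 1) with hg
  have hgm : Measurable g := measurable_const.indicator measurableSet_ball
  have hgn : ∀ y, ‖g y‖ = if ‖y‖ < 1 then 1 else 0 := by
    intro y
    rw [hg]
    by_cases hy : ‖y‖ < 1
    · rw [if_pos hy, Set.indicator_of_mem (by simpa using hy)]; simp
    · rw [if_neg hy, Set.indicator_of_notMem (by simpa using hy)]; simp
  have hg1 : ∀ y, ‖g y‖ ≤ 1 := by
    intro y; rw [hgn]; split_ifs <;> norm_num
  have hgi : Integrable g volume := by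
    rw [hg, integrable_indicator_iff measurableSet_ball]
    exact integrableOn_const (measure_ball_lt_top).ne
  set V : ℝ := ∫ y, ‖g y‖ with hV
  have hV0 : 0 ≤ V := integral_nonneg fun _ => norm_nonneg _
  have hs := fun x => Pool.Agent.Helper96.CE.sing_two g hgm 1 hg1 hgi x
  have hp := Real.pi_pos
  set C' : ℝ := 1 / f1 * (4 * Real.pi * 1 * 1 + V / 1 ^ 2 + (4 * Real.pi * 1 * 1 + V / 1 ^ 2)) +
    c0 * f2 * V with hC'
  have hC0 : 0 ≤ C' := by positivity
  refine ⟨C' / f1, by positivity, fun w h x hx => ?_⟩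
  have hfx : 0 < f x := hf1.trans_le (hf12 x).1
  have hr := SS_rep f f1 f2 hf hf1 hf12 hfi hpsi c0 j j' hj w h x hx
  have hI : Integrable (fun y => ‖w‖ * |x j| * (1 / f1 * (‖g y‖ / ‖x - y‖ ^ 2 +
      ‖g y‖ / ‖rf j x - y‖ ^ 2) + c0 * f2 * ‖g y‖)) volume :=
    ((((hs x).1.add (hs (rf j x)).1).const_mul _).add (hgi.norm.const_mul _)).const_mul _
  have hb : ‖ev (SS f c0 w) x‖ ≤ ‖w‖ * |x j| * C' := by
    rw [hr.2]
    calc ‖∫ y, ((kap f c0 j x y : ℝ) : ℂ) * ev w y‖ ≤ ∫ y, ‖w‖ * |x j| * (1 / f1 *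
          (‖g y‖ / ‖x - y‖ ^ 2 + ‖g y‖ / ‖rf j x - y‖ ^ 2) + c0 * f2 * ‖g y‖) := by
          apply norm_integral_le_of_norm_le hI
          filter_upwards [ae_ne_pt x, ae_ne_pt (rf j x)] with y h1 h2
          rw [norm_mul, Complex.norm_real, Real.norm_eq_abs]
          by_cases hy : ‖y‖ < 1
          · have hfy : 0 < f y := hf1.trans_le (hf12 y).1
            have hD := DD_upper j x y h1 h2
            have hyj : |y j| ≤ 1 := (coord_le j y).trans hy.le
            have hk : |kap f c0 j x y| ≤ |x j| * (1 / f1 * (1 / ‖x - y‖ ^ 2 +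
                1 / ‖rf j x - y‖ ^ 2) + c0 * f2 * 1) := by
              unfold kap
              rw [if_pos hy]
              refine (abs_sub _ _).trans ?_
              have t1 : |DD j x y / 2 * (1 / f y)| ≤
                  |x j| * (1 / ‖x - y‖ ^ 2 + 1 / ‖rf j x - y‖ ^ 2) * (1 / f1) := by
                rw [abs_mul, abs_div, abs_two, abs_of_pos (by positivity : 0 < 1 / f y)]
                apply mul_le_mul _ (one_div_le_one_div_of_le hf1 (hf12 y).1) (by positivity)
                  (by positivity)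
                have : |DD j x y| / 2 ≤ |DD j x y| := half_le_self (abs_nonneg _)
                exact this.trans hD
              have t2 : |c0 * (f x * x j) * y j| ≤ |x j| * (c0 * f2 * 1) := by
                rw [abs_mul, abs_mul, abs_mul, abs_of_pos hc0, abs_of_pos hfx]
                calc c0 * (f x * |x j|) * |y j| ≤ c0 * (f2 * |x j|) * 1 := by
                      gcongr
                      exact (hf12 x).2
                  _ = _ := by ring
              linarith
            rw [hgn, if_pos hy]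
            calc |kap f c0 j x y| * ‖ev w y‖ ≤ (|x j| * (1 / f1 * (1 / ‖x - y‖ ^ 2 +
                1 / ‖rf j x - y‖ ^ 2) + c0 * f2 * 1)) * ‖w‖ :=
                  mul_le_mul hk (ev_le w y) (norm_nonneg _) (by positivity)
              _ = _ := by ring
          · rw [hgn, if_neg hy]
            simp [kap, if_neg hy]
      _ = ‖w‖ * |x j| * (1 / f1 * ((∫ y, ‖g y‖ / ‖x - y‖ ^ 2) +
          ∫ y, ‖g y‖ / ‖rf j x - y‖ ^ 2) + c0 * f2 * V) := by
          have hA : Integrable (fun y => 1 / f1 * (‖g y‖ / ‖x - y‖ ^ 2 +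
              ‖g y‖ / ‖rf j x - y‖ ^ 2)) volume :=
            ((hs x).1.add (hs (rf j x)).1).const_mul _
          have hB : Integrable (fun y => c0 * f2 * ‖g y‖) volume := hgi.norm.const_mul _
          rw [integral_const_mul, integral_add hA hB, integral_const_mul, integral_const_mul,
            integral_add (hs x).1 (hs (rf j x)).1]
      _ ≤ ‖w‖ * |x j| * C' := by
          apply mul_le_mul_of_nonneg_left _ (by positivity)
          have a1 := (hs x).2 1 one_pos
          have a2 := (hs (rf j x)).2 1 one_pos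
          rw [hC']
          gcongr
  refine hb.trans ?_
  rw [abs_mul (f x), abs_of_pos hfx]
  have h3 : |x j| ≤ f x * |x j| / f1 := by
    rw [le_div_iff₀ hf1]
    have := mul_le_mul_of_nonneg_left (hf12 x).1 (abs_nonneg (x j))
    linarith
  calc ‖w‖ * |x j| * C' ≤ ‖w‖ * (f x * |x j| / f1) * C' := by gcongr
    _ = C' / f1 * ‖w‖ * (f x * |x j|) := by ring

include hf hf1 hf12 hfi in
/-- `S_ w` depends only on `w` in the unit ball -/
theorem SS_loc (c0 : ℝ) (w : S) (s : ℝ) (hs : 0 ≤ s) (hw : ∀ y, ‖y‖ < 1 → ‖ev w y‖ ≤ s) :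
    ‖SS f c0 w‖ ≤ ‖SS f c0‖ * s := by
  have hV := vv_pot f f1 f2 hf hf1 hf12 hfi
  obtain ⟨w', hw'⟩ := exists_ev (fun x => if ‖x‖ < 1 then ev w x else 0) ⟨by
      refine Measurable.ite (measurableSet_lt measurable_norm measurable_const) (meas_ev w)
        measurable_const, fun x => by
      simp only [norm_neg, (cls_ev w).neg]
      split_ifs <;> simp, fun x => by
      simp only [LinearIsometryEquiv.norm_map, (cls_ev w).refl]⟩ s (fun x => by
      split_ifs with hx
      · exact hw x hx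
      · simpa using hs)
  have hT : T 0 (vv f) w' = T 0 (vv f) w := by
    apply ev_ext
    intro x
    rw [T_spec 0 im_zero _ hV, T_spec 0 im_zero _ hV]
    refine integral_congr_ae (Filter.Eventually.of_forall fun y => ?_)
    simp only
    rw [hw']
    by_cases hy : ‖y‖ < 1
    · rw [if_pos hy]
    · rw [vv_out f y hy]; simp
  have hm : ∀ j, mom j w' = mom j w := by
    intro j
    rw [mom_src, mom_src]
    refine integral_congr_ae (Filter.Eventually.of_forall fun y => ?_)
    simp only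
    rw [hw']
    by_cases hy : ‖y‖ < 1
    · rw [if_pos hy]
    · rw [src, Set.indicator_of_notMem (by simpa using hy)]; simp
  have e : ∀ u, SS f c0 u = -(T 0 (vv f) u + (c0 : ℂ) • (mom 0 u • psi 0 + mom 1 u • psi 1)) :=
    fun u => rfl
  have h1 : SS f c0 w = SS f c0 w' := by rw [e, e, hT, hm, hm]
  rw [h1]
  have h2 : ‖w'‖ ≤ s := by
    apply norm_le_ev _ _ hs
    intro x
    rw [hw']
    split_ifs with hx
    · exact hw x hx
    · simpa using hs
  exact ((SS f c0).le_opNorm w').trans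
    (mul_le_mul_of_nonneg_left h2 (ContinuousLinearMap.opNorm_nonneg _))

include hf hf1 hf12 hfi hpsi in
theorem mom_pos (j : Fin 3) (hj2 : j ≠ 2) : ∃ m : ℝ, 0 < m ∧ mom j (psi j) = (m : ℂ) := by
  set r : E3 → ℝ := (Metric.ball (0 : E3) 1).indicator (fun y => f y * (y j) ^ 2) with hr
  have hf2 : 0 < f2 := hf1.trans_le ((hf12 0).1.trans (hf12 0).2)
  have hrm : Measurable r := by
    apply Measurable.indicator _ measurableSet_ball
    exact hf.mul (by fun_prop)
  have hr0 : ∀ y, 0 ≤ r y := by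
    intro y
    rw [hr]
    apply Set.indicator_nonneg
    intro y _
    exact mul_nonneg (hf1.le.trans (hf12 y).1) (sq_nonneg _)
  have hri : Integrable r volume := by
    refine (ind_int f2).mono' hrm.aestronglyMeasurable (Filter.Eventually.of_forall fun y => ?_)
    rw [Real.norm_eq_abs, abs_of_nonneg (hr0 y), hr]
    by_cases hy : y ∈ Metric.ball (0 : E3) 1
    · rw [Set.indicator_of_mem hy, Set.indicator_of_mem hy]
      have h1 : |y j| ≤ 1 := (coord_le j y).trans (by rw [mem_ball_zero_iff] at hy; exact hy.le)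
      have h2 : (y j) ^ 2 ≤ 1 := by rw [← sq_abs]; nlinarith [abs_nonneg (y j)]
      have h3 := (hf12 y).2
      have h4 := hf1.trans_le (hf12 y).1
      nlinarith
    · rw [Set.indicator_of_notMem hy, Set.indicator_of_notMem hy]
  refine ⟨∫ y, r y, ?_, ?_⟩
  · rw [integral_pos_iff_support_of_nonneg hr0 hri]
    have hsub : Metric.ball (EuclideanSpace.single j (1 / 2 : ℝ)) (1 / 4) ⊆
        Function.support r := by
      intro y hy
      rw [mem_ball_iff_norm] at hy
      have h1 : ‖y‖ < 1 := by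
        have h2 : ‖y‖ ≤ ‖y - EuclideanSpace.single j (1 / 2 : ℝ)‖ +
            ‖EuclideanSpace.single j (1 / 2 : ℝ)‖ := by
          have := norm_add_le (y - EuclideanSpace.single j (1 / 2 : ℝ))
            (EuclideanSpace.single j (1 / 2 : ℝ))
          simpa using this
        rw [EuclideanSpace.norm_single] at h2
        norm_num at h2 hy ⊢
        linarith
      have h3 : 0 < y j := by
        have h4 := (coord_le j (y - EuclideanSpace.single j (1 / 2 : ℝ))).trans hy.le
        rw [PiLp.sub_apply, EuclideanSpace.single_apply, if_pos rfl, abs_le] at h4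
        linarith [h4.1]
      rw [Function.mem_support, hr, Set.indicator_of_mem (by simpa using h1)]
      have h5 := hf1.trans_le (hf12 y).1
      positivity
    exact lt_of_lt_of_le (Metric.measure_ball_pos volume _ (by norm_num)) (measure_mono hsub)
  · rw [mom_src, ← integral_complex_ofReal]
    refine integral_congr_ae (Filter.Eventually.of_forall fun y => ?_)
    simp only
    rw [hr, src]
    by_cases hy : y ∈ Metric.ball (0 : E3) 1
    · rw [Set.indicator_of_mem hy, Set.indicator_of_mem hy,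
        psi_in f hpsi j hj2 y (by simpa using hy)]
      push_cast; ring
    · rw [Set.indicator_of_notMem hy, Set.indicator_of_notMem hy]; simp

end

end Pool.Agent.Helper17.CE
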