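import Mathlib

set_option autoImplicit false

namespace Pool.Agent.Helper17.CE
open MeasureTheory Set Filter Topology

/-- the convolution of `f` with `e^{-s}` on the half line -/
noncomputable def K (f : ℝ → ℝ) (s : ℝ) : ℝ := Real.exp (-s) * ∫ x in (0:ℝ)..s, Real.exp x * f x

theorem K_zero (f : ℝ → ℝ) : K f 0 = 0 := by simp [K]

theorem K_deriv (f : ℝ → ℝ) (hf : Continuous f) (s : ℝ) : HasDerivAt (K f) (f s - K f s) s := by
  have hc : Continuous fun x => Real.exp x * f x := Real.continuous_exp.mul hf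
  have h1 : HasDerivAt (fun s => ∫ x in (0:ℝ)..s, Real.exp x * f x) (Real.exp s * f s) s :=
    (hc.integral_hasStrictDerivAt 0 s).hasDerivAt
  have h2 : HasDerivAt (fun s : ℝ => Real.exp (-s)) (-Real.exp (-s)) s := by
    have := (hasDerivAt_neg s).exp
    simpa using this
  have h3 := h2.mul h1
  have e : f s - K f s = -Real.exp (-s) * (∫ x in (0:ℝ)..s, Real.exp x * f x) +
      Real.exp (-s) * (Real.exp s * f s) := by
    have : Real.exp (-s) * Real.exp s = 1 := by rw [← Real.exp_add]; simp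
    rw [← mul_assoc, this, K]; ring
  rw [e]
  exact h3

theorem K_cont (f : ℝ → ℝ) (hf : Continuous f) : Continuous (K f) :=
  continuous_iff_continuousAt.2 fun s => (K_deriv f hf s).continuousAt

theorem K_bdd (f : ℝ → ℝ) (B : ℝ) (hB : ∀ s, 0 ≤ s → |f s| ≤ B) (s : ℝ) (hs : 0 ≤ s) :
    |K f s| ≤ B := by
  have hB0 : 0 ≤ B := le_trans (abs_nonneg _) (hB 0 le_rfl)
  have h1 : ‖∫ x in (0:ℝ)..s, Real.exp x * f x‖ ≤ ∫ x in (0:ℝ)..s, Real.exp x * B := by
    apply intervalIntegral.norm_integral_le_of_norm_le hs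
    · filter_upwards with x hx
      rw [norm_mul, Real.norm_eq_abs, Real.norm_eq_abs, Real.abs_exp]
      exact mul_le_mul_of_nonneg_left (hB x hx.1.le) (Real.exp_pos x).le
    · exact (Real.continuous_exp.mul continuous_const).intervalIntegrable _ _
  have h2 : ∫ x in (0:ℝ)..s, Real.exp x * B = (Real.exp s - 1) * B := by
    rw [intervalIntegral.integral_mul_const]; simp
  rw [h2, Real.norm_eq_abs] at h1
  rw [K, abs_mul, Real.abs_exp]
  calc Real.exp (-s) * |∫ x in (0:ℝ)..s, Real.exp x * f x| ≤ Real.exp (-s) * ((Real.exp s - 1) * B) :=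
        mul_le_mul_of_nonneg_left h1 (Real.exp_pos _).le
    _ = (Real.exp (-s) * Real.exp s) * B - Real.exp (-s) * B := by ring
    _ ≤ B := by
        have : Real.exp (-s) * Real.exp s = 1 := by rw [← Real.exp_add]; simp
        rw [this]
        have := mul_nonneg (Real.exp_pos (-s)).le hB0
        linarith

/-- energy of `f` with weight `e^{2ηx}` on `[0,s]` -/
noncomputable def J (η : ℝ) (f : ℝ → ℝ) (s : ℝ) : ℝ := ∫ x in (0:ℝ)..s, Real.exp (2 * η * x) * f x ^ 2

theorem J_nonneg (η : ℝ) (f : ℝ → ℝ) (s : ℝ) (hs : 0 ≤ s) : 0 ≤ J η f s :=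
  intervalIntegral.integral_nonneg hs fun x _ => mul_nonneg (Real.exp_pos _).le (sq_nonneg _)

theorem expw_cont (η : ℝ) : Continuous fun x : ℝ => Real.exp (2 * η * x) := by fun_prop

/-- the energy identity -/
theorem energy (η : ℝ) (f : ℝ → ℝ) (hf : Continuous f) (s : ℝ) :
    Real.exp (2 * η * s) * K f s ^ 2 =
      ∫ x in (0:ℝ)..s, Real.exp (2 * η * x) * (2 * f x * K f x - 2 * (1 - η) * K f x ^ 2) := by
  have hK := K_cont f hf
  have h : ∀ x ∈ uIcc 0 s, HasDerivAt (fun x => Real.exp (2 * η * x) * K f x ^ 2)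
      (Real.exp (2 * η * x) * (2 * f x * K f x - 2 * (1 - η) * K f x ^ 2)) x := by
    intro x _
    have h1 : HasDerivAt (fun x : ℝ => Real.exp (2 * η * x)) (Real.exp (2 * η * x) * (2 * η)) x := by
      have := ((hasDerivAt_id x).const_mul (2 * η)).exp
      simpa using this
    have h2 := (K_deriv f hf x).pow 2
    have h3 := h1.mul h2
    have e : Real.exp (2 * η * x) * (2 * f x * K f x - 2 * (1 - η) * K f x ^ 2) =
        Real.exp (2 * η * x) * (2 * η) * (K f ^ 2) x +
        Real.exp (2 * η * x) * (((2:ℕ):ℝ) * K f x ^ (2 - 1) * (f x - K f x)) := by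
      simp only [Pi.pow_apply]; push_cast; ring
    rw [e]
    exact h3
  rw [intervalIntegral.integral_eq_sub_of_hasDerivAt h]
  · simp [K_zero]
  · apply Continuous.intervalIntegrable
    have := expw_cont η
    fun_prop

theorem J_K_le (η : ℝ) (h0 : 0 ≤ η) (h1 : η ≤ 1 / 4) (f : ℝ → ℝ) (hf : Continuous f) (s : ℝ)
    (hs : 0 ≤ s) : J η (K f) s ≤ 16 / 9 * J η f s := by
  have hK := K_cont f hf
  have hw := expw_cont η
  have hE := energy η f hf s
  have hpos : 0 ≤ Real.exp (2 * η * s) * K f s ^ 2 := mul_nonneg (Real.exp_pos _).le (sq_nonneg _)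
  -- 2 f F - 2(1-η) F² ≤ 4/3 f² - 3/4 F²
  have hle : ∫ x in (0:ℝ)..s, Real.exp (2 * η * x) * (2 * f x * K f x - 2 * (1 - η) * K f x ^ 2) ≤
      ∫ x in (0:ℝ)..s, (4 / 3 * (Real.exp (2 * η * x) * f x ^ 2) -
        3 / 4 * (Real.exp (2 * η * x) * K f x ^ 2)) := by
    apply intervalIntegral.integral_mono_on hs
    · apply Continuous.intervalIntegrable; fun_prop
    · apply Continuous.intervalIntegrable; fun_prop
    · intro x _
      have he := (Real.exp_pos (2 * η * x)).le
      have : 2 * f x * K f x - 2 * (1 - η) * K f x ^ 2 ≤ 4 / 3 * f x ^ 2 - 3 / 4 * K f x ^ 2 := by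
        nlinarith [sq_nonneg (2 * f x - 3 / 2 * K f x), sq_nonneg (K f x)]
      calc _ ≤ Real.exp (2 * η * x) * (4 / 3 * f x ^ 2 - 3 / 4 * K f x ^ 2) :=
            mul_le_mul_of_nonneg_left this he
        _ = _ := by ring
  rw [intervalIntegral.integral_sub, intervalIntegral.integral_const_mul,
    intervalIntegral.integral_const_mul] at hle
  · rw [← hE] at hle
    unfold J
    linarith
  · apply Continuous.intervalIntegrable; fun_prop
  · apply Continuous.intervalIntegrable; fun_prop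

theorem K_sq_le (η : ℝ) (h0 : 0 ≤ η) (h1 : η ≤ 1 / 4) (f : ℝ → ℝ) (hf : Continuous f) (s : ℝ)
    (hs : 0 ≤ s) : Real.exp (2 * η * s) * K f s ^ 2 ≤ 2 / 3 * J η f s := by
  have hK := K_cont f hf
  have hw := expw_cont η
  have hE := energy η f hf s
  have hle : ∫ x in (0:ℝ)..s, Real.exp (2 * η * x) * (2 * f x * K f x - 2 * (1 - η) * K f x ^ 2) ≤
      ∫ x in (0:ℝ)..s, (2 / 3 * (Real.exp (2 * η * x) * f x ^ 2)) := by
    apply intervalIntegral.integral_mono_on hs
    · apply Continuous.intervalIntegrable; fun_prop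
    · apply Continuous.intervalIntegrable; fun_prop
    · intro x _
      have he := (Real.exp_pos (2 * η * x)).le
      have : 2 * f x * K f x - 2 * (1 - η) * K f x ^ 2 ≤ 2 / 3 * f x ^ 2 := by
        nlinarith [sq_nonneg (2 * f x - 3 * K f x), sq_nonneg (K f x)]
      calc _ ≤ Real.exp (2 * η * x) * (2 / 3 * f x ^ 2) :=
            mul_le_mul_of_nonneg_left this he
        _ = _ := by ring
  rw [intervalIntegral.integral_const_mul] at hle
  rw [hE]
  exact hle

/-- one step of the recursion -/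
noncomputable def U (f : ℝ → ℝ) (s : ℝ) : ℝ := f s - 2 * K f s

theorem U_cont (f : ℝ → ℝ) (hf : Continuous f) : Continuous (U f) := by
  have := K_cont f hf
  unfold U; fun_prop

theorem J_U_le (η : ℝ) (h0 : 0 ≤ η) (h1 : η ≤ 1 / 4) (f : ℝ → ℝ) (hf : Continuous f) (s : ℝ)
    (hs : 0 ≤ s) : J η (U f) s ≤ (1 + 64 / 9 * η) * J η f s := by
  have hK := K_cont f hf
  have hw := expw_cont η
  have hE := energy η f hf s
  have hpos : 0 ≤ Real.exp (2 * η * s) * K f s ^ 2 := mul_nonneg (Real.exp_pos _).le (sq_nonneg _)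
  have e : J η (U f) s = J η f s - 2 * (∫ x in (0:ℝ)..s,
      Real.exp (2 * η * x) * (2 * f x * K f x - 2 * (1 - η) * K f x ^ 2)) + 4 * η * J η (K f) s := by
    unfold J
    rw [← intervalIntegral.integral_const_mul, ← intervalIntegral.integral_const_mul,
      ← intervalIntegral.integral_sub, ← intervalIntegral.integral_add]
    · apply intervalIntegral.integral_congr
      intro x _
      simp only [U]; ring
    · apply Continuous.intervalIntegrable; fun_prop
    · apply Continuous.intervalIntegrable; fun_prop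
    · apply Continuous.intervalIntegrable; fun_prop
    · apply Continuous.intervalIntegrable; fun_prop
  rw [e, ← hE]
  have h2 := J_K_le η h0 h1 f hf s hs
  have h3 := mul_le_mul_of_nonneg_left h2 (by linarith : (0:ℝ) ≤ 4 * η)
  nlinarith [h3, hpos]

/-- `R1 n s = e^{-s} l_n(s)` -/
noncomputable def R1 : ℕ → ℝ → ℝ
  | 0 => fun s => Real.exp (-s)
  | n + 1 => U (R1 n)

theorem R1_cont (n : ℕ) : Continuous (R1 n) := by
  induction n with
  | zero => show Continuous fun s : ℝ => Real.exp (-s); fun_prop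
  | succ n ih => exact U_cont _ ih

theorem R1_bdd (n : ℕ) : ∃ B, ∀ s, 0 ≤ s → |R1 n s| ≤ B := by
  induction n with
  | zero =>
    refine ⟨1, fun s hs => ?_⟩
    show |Real.exp (-s)| ≤ 1
    rw [Real.abs_exp]; exact Real.exp_le_one_iff.2 (by linarith)
  | succ n ih =>
    obtain ⟨B, hB⟩ := ih
    refine ⟨B + 2 * B, fun s hs => ?_⟩
    show |R1 n s - 2 * K (R1 n) s| ≤ _
    have h1 := hB s hs
    have h2 := K_bdd _ B hB s hs
    calc |R1 n s - 2 * K (R1 n) s| ≤ |R1 n s| + |2 * K (R1 n) s| := abs_sub _ _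
      _ = |R1 n s| + 2 * |K (R1 n) s| := by rw [abs_mul, abs_two]
      _ ≤ _ := by linarith

theorem J_R1_zero (η : ℝ) (h0 : 0 ≤ η) (h1 : η ≤ 1 / 4) (s : ℝ) (hs : 0 ≤ s) :
    J η (R1 0) s ≤ 2 / 3 := by
  have h : ∀ x ∈ uIcc 0 s, HasDerivAt (fun x : ℝ => - (2 / 3) * Real.exp (-(3 / 2) * x))
      (Real.exp (-(3 / 2) * x)) x := by
    intro x _
    have h := (((hasDerivAt_id x).const_mul (-(3 / 2 : ℝ))).exp).const_mul (-(2 / 3 : ℝ))
    have e : Real.exp (-(3 / 2) * x) =
        -(2 / 3) * (Real.exp (-(3 / 2) * id x) * (-(3 / 2) * 1)) := by simp only [id]; ring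
    rw [e]; exact h
  have hI : ∫ x in (0:ℝ)..s, Real.exp (-(3 / 2) * x) ≤ 2 / 3 := by
    rw [intervalIntegral.integral_eq_sub_of_hasDerivAt h]
    · have := Real.exp_pos (-(3 / 2) * s)
      simp only [mul_zero, Real.exp_zero]
      linarith
    · apply Continuous.intervalIntegrable; fun_prop
  refine le_trans ?_ hI
  unfold J
  apply intervalIntegral.integral_mono_on hs
  · apply Continuous.intervalIntegrable
    have := R1_cont 0
    fun_prop
  · apply Continuous.intervalIntegrable; fun_prop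
  · intro x hx
    show Real.exp (2 * η * x) * (Real.exp (-x)) ^ 2 ≤ _
    rw [← Real.exp_nat_mul, ← Real.exp_add]
    apply Real.exp_le_exp.2
    push_cast
    have := hx.1
    nlinarith

theorem J_R1_le (N : ℕ) (hN : 1 ≤ N) (n : ℕ) (hn : n ≤ N) (s : ℝ) (hs : 0 ≤ s) :
    J (1 / (4 * N)) (R1 n) s ≤ 5 := by
  have hNr : (1:ℝ) ≤ N := by exact_mod_cast hN
  have h0 : (0:ℝ) ≤ 1 / (4 * N) := by positivity
  have h1 : (1:ℝ) / (4 * N) ≤ 1 / 4 := by
    apply one_div_le_one_div_of_le (by norm_num); linarith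
  have key : ∀ n : ℕ, J (1 / (4 * N)) (R1 n) s ≤ (1 + 64 / 9 * (1 / (4 * N))) ^ n * (2 / 3) := by
    intro n
    induction n with
    | zero => simpa using J_R1_zero _ h0 h1 s hs
    | succ n ih =>
      have := J_U_le _ h0 h1 (R1 n) (R1_cont n) s hs
      calc J (1 / (4 * N)) (R1 (n + 1)) s ≤ (1 + 64 / 9 * (1 / (4 * N))) * J (1 / (4 * N)) (R1 n) s :=
            this
        _ ≤ (1 + 64 / 9 * (1 / (4 * N))) * ((1 + 64 / 9 * (1 / (4 * N))) ^ n * (2 / 3)) :=
            mul_le_mul_of_nonneg_left ih (by positivity)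
        _ = _ := by ring
  refine le_trans (key n) ?_
  have h2 : (1 + 64 / 9 * (1 / (4 * (N:ℝ)))) ≤ Real.exp (16 / 9 / N) := by
    have := Real.add_one_le_exp (16 / 9 / (N:ℝ))
    have e : 64 / 9 * (1 / (4 * (N:ℝ))) = 16 / 9 / N := by field_simp; norm_num
    rw [e]; linarith
  have h3 : (1 + 64 / 9 * (1 / (4 * (N:ℝ)))) ^ n ≤ Real.exp 2 := by
    calc (1 + 64 / 9 * (1 / (4 * (N:ℝ)))) ^ n ≤ (Real.exp (16 / 9 / N)) ^ n :=
          pow_le_pow_left₀ (by positivity) h2 n
      _ = Real.exp (n * (16 / 9 / N)) := by rw [← Real.exp_nat_mul]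
      _ ≤ Real.exp 2 := by
          apply Real.exp_le_exp.2
          have hn' : (n:ℝ) ≤ N := by exact_mod_cast hn
          have : (n:ℝ) * (16 / 9 / N) ≤ N * (16 / 9 / N) :=
            mul_le_mul_of_nonneg_right hn' (by positivity)
          have e : (N:ℝ) * (16 / 9 / N) = 16 / 9 := by field_simp
          linarith
  have h4 : Real.exp 2 ≤ 7.5 := by
    have := Real.exp_one_lt_d9
    have h : Real.exp 2 = Real.exp 1 ^ 2 := by rw [← Real.exp_nat_mul]; norm_num
    rw [h]
    have := Real.exp_pos 1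
    nlinarith
  nlinarith

/-- iterated `K` -/
noncomputable def Rm (m n : ℕ) : ℝ → ℝ := K^[m] (R1 n)

theorem Rm_succ (m n : ℕ) : Rm (m + 1) n = K (Rm m n) := by
  unfold Rm; rw [Function.iterate_succ_apply']

theorem Rm_cont (m n : ℕ) : Continuous (Rm m n) := by
  induction m with
  | zero => exact R1_cont n
  | succ m ih => rw [Rm_succ]; exact K_cont _ ih

theorem Rm_bdd (m n : ℕ) : ∃ B, ∀ s, 0 ≤ s → |Rm m n s| ≤ B := by
  induction m with
  | zero => exact R1_bdd n
  | succ m ih =>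
    obtain ⟨B, hB⟩ := ih
    exact ⟨B, fun s hs => by rw [Rm_succ]; exact K_bdd _ B hB s hs⟩

theorem Rm_zero (m n : ℕ) : Rm (m + 1) n 0 = 0 := by rw [Rm_succ, K_zero]

theorem Rm_deriv (m n : ℕ) (s : ℝ) : HasDerivAt (Rm (m + 1) n) (Rm m n s - Rm (m + 1) n s) s := by
  rw [Rm_succ]; exact K_deriv _ (Rm_cont m n) s

theorem Rm_le (N : ℕ) (hN : 1 ≤ N) (n : ℕ) (hn : n ≤ N) (m : ℕ) (hm : m ≤ 3) (s : ℝ) (hs : 0 ≤ s) :
    |Rm (m + 1) n s| ≤ 5 * Real.exp (- (s / (4 * N))) := by
  have hNr : (1:ℝ) ≤ N := by exact_mod_cast hN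
  have h0 : (0:ℝ) ≤ 1 / (4 * N) := by positivity
  have h1 : (1:ℝ) / (4 * N) ≤ 1 / 4 := by
    apply one_div_le_one_div_of_le (by norm_num); linarith
  have key : ∀ m : ℕ, J (1 / (4 * N)) (Rm m n) s ≤ (16 / 9) ^ m * 5 := by
    intro m
    induction m with
    | zero => simpa using! J_R1_le N hN n hn s hs
    | succ m ih =>
      rw [Rm_succ]
      have := J_K_le _ h0 h1 (Rm m n) (Rm_cont m n) s hs
      rw [pow_succ]; linarith
  have hk := key m
  have h3 : (16 / 9 : ℝ) ^ m * 5 ≤ (16 / 9) ^ 3 * 5 :=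
    mul_le_mul_of_nonneg_right (pow_le_pow_right₀ (by norm_num) hm) (by norm_num)
  have h4 := K_sq_le _ h0 h1 (Rm m n) (Rm_cont m n) s hs
  rw [← Rm_succ] at h4
  have h5 : Real.exp (2 * (1 / (4 * N)) * s) * Rm (m + 1) n s ^ 2 ≤ 25 := by
    have : (2 / 3 : ℝ) * ((16 / 9) ^ 3 * 5) ≤ 25 := by norm_num
    nlinarith
  have h6 : Real.exp (- (s / (4 * N))) ^ 2 * Real.exp (2 * (1 / (4 * N)) * s) = 1 := by
    rw [← Real.exp_nat_mul, ← Real.exp_add]
    have : ((2:ℕ):ℝ) * (- (s / (4 * N))) + 2 * (1 / (4 * N)) * s = 0 := by push_cast; ring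
    rw [this, Real.exp_zero]
  apply abs_le_of_sq_le_sq _ (by positivity)
  have h7 := mul_le_mul_of_nonneg_left h5 (sq_nonneg (Real.exp (- (s / (4 * N)))))
  rw [← mul_assoc, h6] at h7
  nlinarith

end Pool.Agent.Helper17.CE
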