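import Pool.Agent.Helper17.CE.Lag1

set_option autoImplicit false

namespace Pool.Agent.Helper17.CE
open MeasureTheory Set Filter Topology

/-- measurable, and bounded on `(a, ∞)` -/
structure Gd (a : ℝ) (f : ℝ → ℂ) : Prop where
  meas : Measurable f
  bdd : ∃ B : ℝ, ∀ t, a < t → ‖f t‖ ≤ B

theorem Gd.const (a : ℝ) (c : ℂ) : Gd a (fun _ => c) := ⟨measurable_const, ‖c‖, fun _ _ => le_rfl⟩

theorem Gd.add {a : ℝ} {f g : ℝ → ℂ} (hf : Gd a f) (hg : Gd a g) : Gd a (fun t => f t + g t) := by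
  obtain ⟨B, hB⟩ := hf.bdd
  obtain ⟨D, hD⟩ := hg.bdd
  exact ⟨hf.meas.add hg.meas, B + D, fun t ht => (norm_add_le _ _).trans (add_le_add (hB t ht) (hD t ht))⟩

theorem Gd.mul {a : ℝ} {f g : ℝ → ℂ} (hf : Gd a f) (hg : Gd a g) : Gd a (fun t => f t * g t) := by
  obtain ⟨B, hB⟩ := hf.bdd
  obtain ⟨D, hD⟩ := hg.bdd
  refine ⟨hf.meas.mul hg.meas, B * D, fun t ht => ?_⟩
  rw [norm_mul]
  exact mul_le_mul (hB t ht) (hD t ht) (norm_nonneg _) ((norm_nonneg _).trans (hB t ht))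

theorem Gd.sub {a : ℝ} {f g : ℝ → ℂ} (hf : Gd a f) (hg : Gd a g) : Gd a (fun t => f t - g t) := by
  have := hf.add ((Gd.const a (-1)).mul hg)
  simpa [sub_eq_add_neg] using this

theorem Gd.pow {a : ℝ} {f : ℝ → ℂ} (hf : Gd a f) (k : ℕ) : Gd a (fun t => f t ^ k) := by
  induction k with
  | zero => simpa using Gd.const a 1
  | succ k ih => simpa [pow_succ] using ih.mul hf

theorem norm_expI (ζ : ℂ) (t : ℝ) :
    ‖Complex.exp (Complex.I * ζ * t)‖ = Real.exp (-ζ.im * t) := by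
  rw [Complex.norm_exp]; simp [Complex.mul_re, Complex.mul_im]

theorem Gd.int {a : ℝ} {f : ℝ → ℂ} (hf : Gd a f) (ζ : ℂ) (hζ : 0 < ζ.im) :
    IntegrableOn (fun t : ℝ => f t * Complex.exp (Complex.I * ζ * t)) (Ioi a) := by
  obtain ⟨B, hB⟩ := hf.bdd
  have h1 : IntegrableOn (fun t : ℝ => B * Real.exp (-ζ.im * t)) (Ioi a) :=
    (integrableOn_exp_mul_Ioi (by linarith) a).const_mul B
  refine Integrable.mono' h1 ?_ ?_
  · have : Measurable fun t : ℝ => Complex.exp (Complex.I * ζ * t) := by fun_prop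
    exact (hf.meas.mul this).aestronglyMeasurable
  · filter_upwards [ae_restrict_mem measurableSet_Ioi] with t ht
    rw [norm_mul, norm_expI]
    exact mul_le_mul_of_nonneg_right (hB t ht) (Real.exp_pos _).le

theorem Gd.tendsto {a : ℝ} {f : ℝ → ℂ} (hf : Gd a f) (ζ : ℂ) (hζ : 0 < ζ.im) :
    Tendsto (fun t : ℝ => f t * Complex.exp (Complex.I * ζ * t)) atTop (𝓝 0) := by
  obtain ⟨B, hB⟩ := hf.bdd
  have h1 : Tendsto (fun t : ℝ => B * Real.exp (-ζ.im * t)) atTop (𝓝 0) := by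
    have h : Tendsto (fun t : ℝ => -ζ.im * t) atTop atBot :=
      tendsto_id.const_mul_atTop_of_neg (by linarith)
    have := (Real.tendsto_exp_atBot.comp h).const_mul B
    simpa using this
  refine squeeze_zero_norm' ?_ h1
  filter_upwards [eventually_gt_atTop a] with t ht
  rw [norm_mul, norm_expI]
  exact mul_le_mul_of_nonneg_right (hB t ht) (Real.exp_pos _).le

theorem Gd.real {f : ℝ → ℝ} (hf : Continuous f) (hB : ∃ B : ℝ, ∀ s, 0 ≤ s → |f s| ≤ B) :
    Gd 0 (fun t => (f t : ℂ)) := by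
  obtain ⟨B, hB⟩ := hB
  exact ⟨(Complex.continuous_ofReal.comp hf).measurable, B, fun t ht => by
    rw [Complex.norm_real]; exact hB t ht.le⟩

/-- Laplace transform -/
noncomputable def Lap (f : ℝ → ℝ) (ζ : ℂ) : ℂ :=
  ∫ s in Ioi (0:ℝ), (f s : ℂ) * Complex.exp (Complex.I * ζ * s)

theorem exp_deriv (ζ : ℂ) (t : ℝ) : HasDerivAt (fun t : ℝ => Complex.exp (Complex.I * ζ * t))
    (Complex.exp (Complex.I * ζ * t) * (Complex.I * ζ)) t := by
  have h1 : HasDerivAt (fun t : ℝ => (t : ℂ)) 1 t := Complex.ofRealCLM.hasDerivAt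
  have h2 := (h1.const_mul (Complex.I * ζ)).cexp
  simpa using h2

theorem zI_ne (ζ : ℂ) (hζ : 0 < ζ.im) : ζ + Complex.I ≠ 0 := by
  intro h
  have := congrArg Complex.im h
  simp at this
  linarith

theorem Lap_K (f : ℝ → ℝ) (hf : Continuous f) (hB : ∃ B : ℝ, ∀ s, 0 ≤ s → |f s| ≤ B) (ζ : ℂ)
    (hζ : 0 < ζ.im) : Lap (K f) ζ = Lap f ζ * (Complex.I / (ζ + Complex.I)) := by
  have hg := Gd.real hf hB
  have hK : Gd 0 (fun t => (K f t : ℂ)) := Gd.real (K_cont f hf) (by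
    obtain ⟨B, hB⟩ := hB
    exact ⟨B, fun s hs => K_bdd f B hB s hs⟩)
  have hd : ∀ t ∈ Ici (0:ℝ), HasDerivAt
      (fun t : ℝ => (K f t : ℂ) * Complex.exp (Complex.I * ζ * t))
      (((f t : ℂ) + (Complex.I * ζ - 1) * (K f t : ℂ)) * Complex.exp (Complex.I * ζ * t)) t := by
    intro t _
    have h1 := (K_deriv f hf t).ofReal_comp
    have h2 := h1.mul (exp_deriv ζ t)
    refine h2.congr_deriv ?_
    push_cast
    ring
  have hi : Gd 0 (fun t => (f t : ℂ) + (Complex.I * ζ - 1) * (K f t : ℂ)) :=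
    hg.add ((Gd.const 0 _).mul hK)
  have h := integral_Ioi_of_hasDerivAt_of_tendsto' hd (hi.int ζ hζ) (hK.tendsto ζ hζ)
  have h2 : (fun t : ℝ => ((f t : ℂ) + (Complex.I * ζ - 1) * (K f t : ℂ)) *
      Complex.exp (Complex.I * ζ * t)) = fun t : ℝ => (f t : ℂ) * Complex.exp (Complex.I * ζ * t) +
      (Complex.I * ζ - 1) * ((K f t : ℂ) * Complex.exp (Complex.I * ζ * t)) := by
    ext t; ring
  rw [h2, integral_add (hg.int ζ hζ) ((hK.int ζ hζ).const_mul _), integral_const_mul] at h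
  simp only [K_zero, Complex.ofReal_zero, zero_mul, sub_zero] at h
  change Lap f ζ + (Complex.I * ζ - 1) * Lap (K f) ζ = 0 at h
  have hz := zI_ne ζ hζ
  field_simp
  have hI : Complex.I * Complex.I = -1 := Complex.I_mul_I
  linear_combination (-Complex.I) * h + (ζ * Lap (K f) ζ) * hI

theorem Lap_U (f : ℝ → ℝ) (hf : Continuous f) (hB : ∃ B : ℝ, ∀ s, 0 ≤ s → |f s| ≤ B) (ζ : ℂ)
    (hζ : 0 < ζ.im) : Lap (U f) ζ = Lap f ζ * ((ζ - Complex.I) / (ζ + Complex.I)) := by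
  have hg := Gd.real hf hB
  have hK : Gd 0 (fun t => (K f t : ℂ)) := Gd.real (K_cont f hf) (by
    obtain ⟨B, hB⟩ := hB
    exact ⟨B, fun s hs => K_bdd f B hB s hs⟩)
  have h1 : Lap (U f) ζ = Lap f ζ - 2 * Lap (K f) ζ := by
    unfold Lap
    rw [← integral_const_mul, ← integral_sub (hg.int ζ hζ) ((hK.int ζ hζ).const_mul _)]
    congr 1
    ext t
    simp only [U]
    push_cast
    ring
  have hz := zI_ne ζ hζ
  rw [h1, Lap_K f hf hB ζ hζ]
  field_simp
  ring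

theorem Lap_R1 (n : ℕ) (ζ : ℂ) (hζ : 0 < ζ.im) : Lap (R1 n) ζ =
    (Complex.I / (ζ + Complex.I)) * ((ζ - Complex.I) / (ζ + Complex.I)) ^ n := by
  induction n with
  | zero =>
    have hz := zI_ne ζ hζ
    have h1 : Lap (R1 0) ζ = ∫ s in Ioi (0:ℝ), Complex.exp ((Complex.I * ζ - 1) * s) := by
      unfold Lap
      congr 1
      ext s
      show ((Real.exp (-s) : ℝ) : ℂ) * _ = _
      rw [Complex.ofReal_exp, ← Complex.exp_add]
      congr 1
      push_cast; ring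
    have h2 : (Complex.I * ζ - 1).re < 0 := by simp [Complex.mul_re]; linarith
    rw [h1, integral_exp_mul_complex_Ioi h2]
    have h3 : Complex.I * ζ - 1 ≠ 0 := by
      intro h; rw [h] at h2; simp at h2
    simp only [Complex.ofReal_zero, mul_zero, Complex.exp_zero, pow_zero, mul_one]
    field_simp
    have hI : Complex.I * Complex.I = -1 := Complex.I_mul_I
    linear_combination (- ζ) * hI
  | succ n ih =>
    show Lap (U (R1 n)) ζ = _
    rw [Lap_U (R1 n) (R1_cont n) (R1_bdd n) ζ hζ, ih, pow_succ]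
    ring

theorem Lap_Rm (m n : ℕ) (ζ : ℂ) (hζ : 0 < ζ.im) : Lap (Rm m n) ζ =
    (Complex.I / (ζ + Complex.I)) ^ (m + 1) * ((ζ - Complex.I) / (ζ + Complex.I)) ^ n := by
  induction m with
  | zero =>
    have := Lap_R1 n ζ hζ
    simpa [Rm] using this
  | succ m ih =>
    rw [Rm_succ, Lap_K (Rm m n) (Rm_cont m n) (Rm_bdd m n) ζ hζ, ih, pow_succ _ (m + 1)]
    ring

/-- the key identity -/
theorem deriv_G (ζ : ℂ) (u X Y Z W : ℝ → ℂ) (t : ℝ) (hu : HasDerivAt u (-(u t) ^ 2) t)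
    (hX : HasDerivAt X (W t) t) (hY : HasDerivAt Y (X t) t) (hZ : HasDerivAt Z (Y t) t) :
    HasDerivAt (fun t : ℝ =>
      ((4 * u t ^ 2 - 4 * (Complex.I * ζ) * u t + (Complex.I * ζ) ^ 2) * X t +
        (-8 * u t ^ 3 + 8 * (Complex.I * ζ) * u t ^ 2 - (Complex.I * ζ) ^ 3) * Y t +
        (8 * u t ^ 4 - 8 * (Complex.I * ζ) * u t ^ 3 + (Complex.I * ζ) ^ 4) * Z t) *
        Complex.exp (Complex.I * ζ * t))
      (((4 * W t - 16 * u t * X t + 32 * u t ^ 2 * Y t - 32 * u t ^ 3 * Z t) *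
        (u t - (Complex.I * ζ) / 2) ^ 2 + (Complex.I * ζ) ^ 5 * Z t) *
        Complex.exp (Complex.I * ζ * t)) t := by
  have hA := (((hu.pow 2).const_mul 4).sub (hu.const_mul (4 * (Complex.I * ζ)))).add_const
    ((Complex.I * ζ) ^ 2)
  have hB := (((hu.pow 3).const_mul (-8)).add ((hu.pow 2).const_mul (8 * (Complex.I * ζ)))).sub_const
    ((Complex.I * ζ) ^ 3)
  have hC := (((hu.pow 4).const_mul 8).sub ((hu.pow 3).const_mul (8 * (Complex.I * ζ)))).add_const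
    ((Complex.I * ζ) ^ 4)
  have h := (((hA.mul hX).add (hB.mul hY)).add (hC.mul hZ)).mul (exp_deriv ζ t)
  refine h.congr_deriv ?_
  simp only [Pi.add_apply, Pi.mul_apply, Pi.sub_apply, Pi.pow_apply]
  push_cast
  ring

theorem shift (h : ℝ → ℂ) (a : ℝ) : ∫ t in Ioi a, h (t - a) = ∫ s in Ioi (0:ℝ), h s := by
  rw [← integral_indicator measurableSet_Ioi, ← integral_indicator measurableSet_Ioi,
    ← integral_sub_right_eq_self ((Ioi (0:ℝ)).indicator h) a]
  congr 1; ext t; simp [indicator, sub_pos]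

end Pool.Agent.Helper17.CE
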